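import Pool.Agent.Helper53.BM.Micro.Basic

set_option autoImplicit false

open Filter Topology

namespace Pool.Agent.Helper53.BM.Lip

variable {E : Type*} [NormedAddCommGroup E] [NormedSpace ℝ E]

/-- Almost transitivity by isometries `T` with `T (T x) - 2 T x + x` of second order. -/
def Bend (E : Type*) [NormedAddCommGroup E] [NormedSpace ℝ E] (C : ℝ) : Prop :=
  ∀ x y : E, ‖x‖ = 1 → ‖y‖ = 1 → ∀ ε : ℝ, 0 < ε → ∃ T : E ≃ₗᵢ[ℝ] E,
    ‖T x - y‖ ≤ ε ∧ ‖T (T x) - (2 : ℝ) • T x + x‖ ≤ C * ‖x - y‖ ^ 2 + ε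

lemma move {C : ℝ} (hC : 0 ≤ C) (h : Bend E C) {x v : E} (hx : ‖x‖ = 1) (hv : ‖v‖ ≤ 1 / 2)
    {ε : ℝ} (hε : 0 < ε) : ∃ T : E ≃ₗᵢ[ℝ] E, ‖‖x + v‖ • T x - (x + v)‖ ≤ ε ∧
      ‖T v - v‖ ≤ (6 * C + 2) * ‖v‖ ^ 2 + ε := by
  set l : ℝ := ‖x + v‖ with hl
  have hl1 : 1 / 2 ≤ l := by
    have := norm_sub_le_norm_add x v
    rw [hx] at this
    linarith
  have hl2 : l ≤ 3 / 2 := by
    have := norm_add_le x v
    rw [hx] at this
    linarith
  have hl0 : 0 < l := by linarith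
  have hl3 : |l - 1| ≤ ‖v‖ := by
    have h3 := abs_norm_sub_norm_le (x + v) x
    rwa [hx, add_sub_cancel_left] at h3
  set y : E := l⁻¹ • (x + v) with hy
  have hy1 : ‖y‖ = 1 := by rw [hy, norm_smul, norm_inv, hl, norm_norm, inv_mul_cancel₀ hl0.ne']
  have hly : x + v = l • y := by rw [hy, smul_smul, mul_inv_cancel₀ hl0.ne', one_smul]
  have hxy : ‖x - y‖ ≤ 2 * ‖v‖ := by
    rw [norm_sub_rev]
    exact norm_normalize_sub hx hv
  obtain ⟨T, hT1, hT2⟩ := h x y hx hy1 (ε / 8) (by positivity)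
  refine ⟨T, ?_, ?_⟩
  · rw [hly, ← smul_sub, norm_smul, Real.norm_eq_abs, abs_of_pos hl0]
    nlinarith [norm_nonneg (T x - y)]
  · have hv' : v = l • y - x := by rw [← hly]; abel
    have e : T v - v = l • (T (T x) - (2 : ℝ) • T x + x) + l • T (y - T x) + l • (T x - y)
        + (l - 1) • (T x - x) := by
      rw [hv']
      simp only [map_sub, map_smul]
      module
    have h1 : ‖T x - x‖ ≤ ε / 8 + 2 * ‖v‖ := by
      have h2 : T x - x = (T x - y) - (x - y) := by abel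
      rw [h2]
      exact (norm_sub_le _ _).trans (by linarith)
    have hv0 := norm_nonneg v
    calc ‖T v - v‖ ≤ ‖l • (T (T x) - (2 : ℝ) • T x + x)‖ + ‖l • T (y - T x)‖ + ‖l • (T x - y)‖
        + ‖(l - 1) • (T x - x)‖ := by
          rw [e]
          exact norm_add₄_le
      _ = l * ‖T (T x) - (2 : ℝ) • T x + x‖ + l * ‖T x - y‖ + l * ‖T x - y‖
        + |l - 1| * ‖T x - x‖ := by
          rw [norm_smul, norm_smul, norm_smul, norm_smul, LinearIsometryEquiv.norm_map,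
            norm_sub_rev y (T x), Real.norm_eq_abs, abs_of_pos hl0, Real.norm_eq_abs]
      _ ≤ 3 / 2 * (C * (2 * ‖v‖) ^ 2 + ε / 8) + 3 / 2 * (ε / 8) + 3 / 2 * (ε / 8)
        + ‖v‖ * (ε / 8 + 2 * ‖v‖) := by
          have h4 : ‖T (T x) - (2 : ℝ) • T x + x‖ ≤ C * (2 * ‖v‖) ^ 2 + ε / 8 :=
            hT2.trans (by gcongr)
          gcongr
      _ ≤ (6 * C + 2) * ‖v‖ ^ 2 + ε := by nlinarith

lemma norm_add_le_dual {C : ℝ} (hC : 0 ≤ C) (h : Bend E C) {x v : E} (hx : ‖x‖ = 1)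
    (hv : ‖v‖ ≤ 1 / 2) {f : StrongDual ℝ E} (hf : Dual x f) :
    ‖x + v‖ ≤ 1 + f v + (6 * C + 2) * ‖v‖ ^ 2 := by
  refine le_of_forall_pos_le_add fun ε hε => ?_
  obtain ⟨T, hT1, hT2⟩ := move hC h hx hv (ε := ε / 2) (by positivity)
  have hfn : ∀ z : E, |f z| ≤ ‖z‖ := by
    intro z
    have h1 := f.le_opNorm z
    rw [hf.norm_eq, hx, one_mul] at h1
    simpa using h1
  have h1 : ‖x + v‖ - ε / 2 ≤ f (T.symm (x + v)) := by
    have h2 : ‖T.symm (x + v) - ‖x + v‖ • x‖ ≤ ε / 2 := by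
      rw [← LinearIsometryEquiv.norm_map T, map_sub, T.apply_symm_apply, map_smul, norm_sub_rev]
      exact hT1
    have h3 := (abs_le.mp ((hfn (T.symm (x + v) - ‖x + v‖ • x)).trans h2)).1
    rw [map_sub, map_smul, hf.2, hx, smul_eq_mul] at h3
    linarith
  have h2 : f (T.symm x) ≤ 1 := by
    have := (le_abs_self _).trans (hfn (T.symm x))
    rwa [LinearIsometryEquiv.norm_map, hx] at this
  have h3 : f (T.symm v) ≤ f v + ((6 * C + 2) * ‖v‖ ^ 2 + ε / 2) := by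
    have h4 : ‖T.symm v - v‖ ≤ (6 * C + 2) * ‖v‖ ^ 2 + ε / 2 := by
      rw [← LinearIsometryEquiv.norm_map T, map_sub, T.apply_symm_apply, norm_sub_rev]
      exact hT2
    have h5 := (le_abs_self _).trans ((hfn (T.symm v - v)).trans h4)
    rw [map_sub] at h5
    linarith
  rw [map_add, map_add] at h1
  linarith

/-- The constant of smoothness. -/
noncomputable def Bc (C : ℝ) : ℝ := 9 + 2 * (6 * C + 2) + (1 + (6 * C + 2)) ^ 2

lemma sq_le {C : ℝ} (hC : 0 ≤ C) (h : Bend E C) (x v : E) {f : StrongDual ℝ E} (hf : Dual x f) :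
    ‖x + v‖ ^ 2 ≤ ‖x‖ ^ 2 + 2 * f v + Bc C * ‖v‖ ^ 2 := by
  have main : ∀ (x v : E) (f : StrongDual ℝ E), ‖x‖ = 1 → Dual x f →
      ‖x + v‖ ^ 2 ≤ 1 + 2 * f v + Bc C * ‖v‖ ^ 2 := by
    intro x v f hx hf
    have hfv : |f v| ≤ ‖v‖ := by
      have h1 := f.le_opNorm v
      rw [hf.norm_eq, hx, one_mul] at h1
      simpa using h1
    have hfv1 := (abs_le.mp hfv).1
    have hfv2 := (abs_le.mp hfv).2
    have hv0 := norm_nonneg v
    have hB : Bc C = 9 + 2 * (6 * C + 2) + (1 + (6 * C + 2)) ^ 2 := rfl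
    set A : ℝ := 6 * C + 2 with hA
    have hA0 : 0 ≤ A := by positivity
    rcases le_or_gt ‖v‖ (1 / 2) with hv | hv
    · have h1 := norm_add_le_dual hC h hx hv hf
      rw [← hA] at h1
      have h2 : ‖x + v‖ ^ 2 ≤ (1 + f v + A * ‖v‖ ^ 2) ^ 2 := by gcongr
      have h3 : |f v + A * ‖v‖ ^ 2| ≤ (1 + A) * ‖v‖ := by
        have h4 : A * ‖v‖ ^ 2 ≤ A * ‖v‖ := by nlinarith [mul_nonneg hA0 hv0]
        have h5 : 0 ≤ A * ‖v‖ ^ 2 := by positivity
        rw [abs_le]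
        constructor <;> nlinarith
      have h4 : (f v + A * ‖v‖ ^ 2) ^ 2 ≤ ((1 + A) * ‖v‖) ^ 2 := by
        rw [← sq_abs (f v + A * ‖v‖ ^ 2)]
        gcongr
      rw [hB]
      nlinarith
    · have h1 : ‖x + v‖ ≤ 1 + ‖v‖ := by
        have := norm_add_le x v
        rwa [hx] at this
      have h2 : ‖x + v‖ ^ 2 ≤ (1 + ‖v‖) ^ 2 := by gcongr
      have h3 : 9 * ‖v‖ ^ 2 ≤ Bc C * ‖v‖ ^ 2 := by
        have : 9 ≤ Bc C := by
          rw [hB]
          nlinarith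
        gcongr
      nlinarith
  rcases eq_or_ne x 0 with hx | hx
  · subst hx
    have h1 : ‖f‖ ≤ 0 := by simpa using hf.1
    have h2 : f = 0 := norm_le_zero_iff.mp h1
    have h3 : 1 ≤ Bc C := by
      have : 0 ≤ (1 + (6 * C + 2)) ^ 2 := by positivity
      unfold Bc
      linarith
    rw [h2]
    simp only [zero_add, norm_zero, zero_apply, mul_zero]
    nlinarith [sq_nonneg ‖v‖]
  · have hxn : 0 < ‖x‖ := norm_pos_iff.mpr hx
    set c : ℝ := ‖x‖ with hc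
    have h1 := main (c⁻¹ • x) (c⁻¹ • v) (c⁻¹ • f) (by
      rw [norm_smul, norm_inv, Real.norm_eq_abs, abs_of_pos hxn, ← hc,
        inv_mul_cancel₀ hxn.ne']) (hf.smul c⁻¹)
    rw [← smul_add, norm_smul, norm_smul, Real.norm_eq_abs, abs_of_pos (by positivity : 0 < c⁻¹),
      smul_apply, map_smul, smul_eq_mul, smul_eq_mul] at h1
    have h2 : c ^ 2 * (c⁻¹ * ‖x + v‖) ^ 2 ≤
        c ^ 2 * (1 + 2 * (c⁻¹ * (c⁻¹ * f v)) + Bc C * (c⁻¹ * ‖v‖) ^ 2) := by gcongr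
    have e1 : c ^ 2 * (c⁻¹ * ‖x + v‖) ^ 2 = ‖x + v‖ ^ 2 := by field_simp
    have e2 : c ^ 2 * (1 + 2 * (c⁻¹ * (c⁻¹ * f v)) + Bc C * (c⁻¹ * ‖v‖) ^ 2) =
        c ^ 2 + 2 * f v + Bc C * ‖v‖ ^ 2 := by field_simp
    rwa [e1, e2] at h2

lemma Bc_pos {C : ℝ} (hC : 0 ≤ C) : 1 ≤ Bc C := by
  have : 0 ≤ (1 + (6 * C + 2)) ^ 2 := by positivity
  unfold Bc
  linarith

/-- The subgradient inequality. -/
lemma le_sq (x v : E) {f : StrongDual ℝ E} (hf : Dual x f) :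
    ‖x‖ ^ 2 + 2 * f v ≤ ‖x + v‖ ^ 2 := by
  have h1 := hf.apply_le (x + v)
  rw [map_add, hf.2] at h1
  nlinarith [sq_nonneg (‖x‖ - ‖x + v‖)]

/-- The upper quadratic bound makes the duality map Lipschitz. -/
lemma dual_sub_le {B : ℝ} (hB : 0 ≤ B)
    (hQ : ∀ (x v : E) (f : StrongDual ℝ E), Dual x f → ‖x + v‖ ^ 2 ≤ ‖x‖ ^ 2 + 2 * f v + B * ‖v‖ ^ 2)
    {x y : E} {f g : StrongDual ℝ E} (hf : Dual x f) (hg : Dual y g) :
    ‖f - g‖ ≤ B * ‖x - y‖ := by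
  have key : ∀ v : E, 2 * (f - g) v ≤ B * ‖v‖ ^ 2 + B * ‖x - y‖ ^ 2 := by
    intro v
    have h1 := hQ y v g hg
    have h2 := le_sq x (y + v - x) hf
    have h3 := hQ x (y - x) f hf
    rw [add_sub_cancel] at h2 h3
    rw [map_sub, map_add] at h2
    rw [map_sub] at h3
    rw [norm_sub_rev y x] at h3
    rw [sub_apply]
    linarith
  refine ContinuousLinearMap.opNorm_le_bound _ (by positivity) fun v => ?_
  have key2 : ∀ v : E, (f - g) v ≤ B * ‖x - y‖ * ‖v‖ := by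
    intro v
    rcases eq_or_ne v 0 with hv | hv
    · simp [hv]
    have hvn : 0 < ‖v‖ := norm_pos_iff.mpr hv
    refine le_of_forall_pos_le_add fun ε hε => ?_
    set d : ℝ := ‖x - y‖ + ε / (B * ‖v‖ + 1) with hd
    have hd0 : 0 < d := by positivity
    have hd1 : ‖x - y‖ ≤ d := by rw [hd]; linarith [show 0 < ε / (B * ‖v‖ + 1) by positivity]
    have h1 := key ((d / ‖v‖) • v)
    rw [map_smul, smul_eq_mul, norm_smul, Real.norm_eq_abs, abs_of_pos (by positivity),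
      div_mul_cancel₀ _ hvn.ne'] at h1
    have h2 : B * ‖x - y‖ ^ 2 ≤ B * d ^ 2 := by gcongr
    have h3 : d * ((f - g) v / ‖v‖) ≤ d * (B * d) := by
      have e : 2 * (d / ‖v‖ * (f - g) v) = 2 * (d * ((f - g) v / ‖v‖)) := by ring
      rw [e] at h1
      nlinarith
    have h4 := le_of_mul_le_mul_left h3 hd0
    rw [div_le_iff₀ hvn] at h4
    have h5 : B * d * ‖v‖ = B * ‖x - y‖ * ‖v‖ + (B * ‖v‖) * (ε / (B * ‖v‖ + 1)) := by
      rw [hd]; ring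
    have h6 : (B * ‖v‖) * (ε / (B * ‖v‖ + 1)) ≤ ε := by
      rw [mul_div_assoc', div_le_iff₀ (by positivity)]
      nlinarith [mul_nonneg hB hvn.le]
    linarith
  rw [Real.norm_eq_abs, abs_le]
  refine ⟨?_, key2 v⟩
  have := key2 (-v)
  rw [map_neg, norm_neg] at this
  linarith

end Pool.Agent.Helper53.BM.Lip
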