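import Pool.Agent.Helper53.BM.Lip.Smooth

set_option autoImplicit false

open Filter Topology

namespace Pool.Agent.Helper53.BM.Lip

variable {E : Type*} [NormedAddCommGroup E] [NormedSpace ℝ E]
variable {B : ℝ} (hS : Smooth E B)
include hS

lemma d3_small {C : ℝ} (hC : 0 ≤ C) (hM : Move E C) {x h : E} (hx : ‖x‖ = 1)
    (hh : ‖h‖ ≤ 1 / 4) : |d3 N x h| ≤ B * (4 * C + C ^ 2 + 16) * ‖h‖ ^ 3 := by
  have hB := hS.pos
  set n : ℝ := ‖h‖ with hn
  have hn0 : 0 ≤ n := norm_nonneg h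
  set K : ℝ := B * (5 + C) + 18 with hK
  have hK0 : 0 < K := by positivity
  refine le_of_forall_pos_le_add fun ε' hε' => ?_
  set ε : ℝ := min 1 (ε' / K) with hε
  have hε0 : 0 < ε := lt_min one_pos (by positivity)
  have hε1 : ε ≤ 1 := min_le_left _ _
  have hεK : K * ε ≤ ε' := by
    have : ε ≤ ε' / K := min_le_right _ _
    rw [le_div_iff₀ hK0] at this
    linarith
  obtain ⟨T, hT1, hT2⟩ := hM x h hx (hh.trans (by norm_num)) ε hε0
  set l : ℝ := ‖x + h‖ with hl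
  have hl1 : 3 / 4 ≤ l := by
    have := norm_sub_le_norm_add x h
    rw [hx, ← hn] at this
    linarith
  have hl2 : l ≤ 5 / 4 := by
    have := norm_add_le x h
    rw [hx, ← hn] at this
    linarith
  have hl0 : 0 < l := by linarith
  have hl3 : |l - 1| ≤ n := by
    have h3 := abs_norm_sub_norm_le (x + h) x
    rwa [hx, add_sub_cancel_left] at h3
  -- first step
  set p : ℝ := C * n ^ 2 + ε with hp
  have hp0 : 0 ≤ p := by positivity
  have t1 : |d2 N (x + h) (T h) - d2 N (x + h) h| ≤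
      B * (4 * C + C ^ 2) * n ^ 3 + B * (5 + C) * ε := by
    have e : T h = h + (T h - h) := by abel
    have h1 := hS.d2_sub_le (x + h) h (T h - h)
    rw [← e, ← hn] at h1
    have h2 : 4 * B * n * ‖T h - h‖ + 4 * B * ‖T h - h‖ ^ 2 ≤ 4 * B * n * p + 4 * B * p ^ 2 := by
      gcongr
    have h3 : 4 * B * n * p + 4 * B * p ^ 2 ≤ B * (4 * C + C ^ 2) * n ^ 3 + B * (5 + C) * ε := by
      have a1 : n ^ 4 ≤ n ^ 3 / 4 := by
        have : 0 ≤ n ^ 3 := by positivity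
        nlinarith
      have a2 : n ^ 2 ≤ 1 / 16 := by nlinarith
      have a3 : n * ε ≤ ε / 4 := by nlinarith
      have a4 : n ^ 2 * ε ≤ ε / 16 := by nlinarith
      have a5 : ε ^ 2 ≤ ε := by nlinarith
      have hp' : 4 * B * n * p + 4 * B * p ^ 2 = B * (4 * C * n ^ 3 + 4 * (n * ε)
          + 4 * C ^ 2 * n ^ 4 + 8 * C * (n ^ 2 * ε) + 4 * ε ^ 2) := by
        rw [hp]; ring
      rw [hp']
      have hC2 : C ^ 2 * n ^ 4 ≤ C ^ 2 * (n ^ 3 / 4) := by gcongr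
      have hC3 : C * (n ^ 2 * ε) ≤ C * (ε / 16) := by gcongr
      have hfin : 4 * C * n ^ 3 + 4 * (n * ε) + 4 * C ^ 2 * n ^ 4 + 8 * C * (n ^ 2 * ε) + 4 * ε ^ 2
          ≤ (4 * C + C ^ 2) * n ^ 3 + (5 + C) * ε := by nlinarith [mul_nonneg hC hε0.le]
      calc B * (4 * C * n ^ 3 + 4 * (n * ε) + 4 * C ^ 2 * n ^ 4 + 8 * C * (n ^ 2 * ε) + 4 * ε ^ 2)
          ≤ B * ((4 * C + C ^ 2) * n ^ 3 + (5 + C) * ε) := by gcongr
        _ = _ := by ring
    exact h1.trans (h2.trans h3)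
  -- second step
  have t2 : |d2 N (x + h) (T h) - d2 N (l • T x) (T h)| ≤ 18 * ε := by
    have hTn : ‖T h‖ = n := by rw [LinearIsometryEquiv.norm_map]
    have ha : ‖l • T x‖ ≤ 5 / 4 := by
      rw [norm_smul, Real.norm_eq_abs, abs_of_pos hl0, LinearIsometryEquiv.norm_map, hx, mul_one]
      exact hl2
    have h1 : ‖l • T x + T h‖ ≤ 7 / 4 := by
      have := norm_add_le (l • T x) (T h)
      rw [hTn] at this
      linarith
    have h2 : ‖l • T x + (2 : ℝ) • T h‖ ≤ 7 / 4 := by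
      have := norm_add_le (l • T x) ((2 : ℝ) • T h)
      have e2 : ‖(2 : ℝ) • T h‖ = 2 * n := by
        rw [norm_smul, Real.norm_eq_abs, abs_of_pos (by norm_num : (0 : ℝ) < 2), hTn]
      linarith
    have hd : ‖(x + h) - l • T x‖ ≤ ε := by rw [norm_sub_rev]; exact hT1
    have h3 := d2_base_le hε0.le hd (ha.trans (by norm_num)) h1 h2
    rw [add_sub_cancel] at h3
    refine h3.trans ?_
    nlinarith
  -- third step
  have t3 : d2 N (l • T x) (T h) = l ^ 2 * d2 N x (l⁻¹ • h) := by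
    rw [← map_smul, d2_map, ← d2_smul, smul_smul, mul_inv_cancel₀ hl0.ne', one_smul]
  -- fourth step
  have t4 : |l ^ 2 * d2 N x (l⁻¹ • h) - d2 N x h| ≤ 16 * B * n ^ 3 := by
    have hinv : l⁻¹ ≤ 4 / 3 := by
      rw [inv_le_comm₀ hl0 (by norm_num)]
      linarith
    have hinv0 : 0 < l⁻¹ := inv_pos.mpr hl0
    have hnorm : ‖l⁻¹ • h‖ ≤ 4 / 3 * n := by
      rw [norm_smul, Real.norm_eq_abs, abs_of_pos hinv0]
      gcongr
    have hk : ‖(l⁻¹ - 1) • h‖ ≤ 4 / 3 * n ^ 2 := by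
      rw [norm_smul, Real.norm_eq_abs]
      have h1 : l⁻¹ - 1 = -(l⁻¹ * (l - 1)) := by field_simp; ring
      rw [h1, abs_neg, abs_mul, abs_of_pos hinv0]
      calc l⁻¹ * |l - 1| * n ≤ 4 / 3 * n * n := by gcongr
        _ = 4 / 3 * n ^ 2 := by ring
    have h1 := hS.d2_le x (l⁻¹ • h)
    have h2 := d2_nonneg x (l⁻¹ • h)
    have h3 := hS.d2_sub_le x h ((l⁻¹ - 1) • h)
    have e : h + (l⁻¹ - 1) • h = l⁻¹ • h := by module
    rw [e, ← hn] at h3
    have h4 : 2 * B * ‖l⁻¹ • h‖ ^ 2 ≤ 2 * B * (4 / 3 * n) ^ 2 := by gcongr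
    have h5 : 4 * B * n * ‖(l⁻¹ - 1) • h‖ + 4 * B * ‖(l⁻¹ - 1) • h‖ ^ 2 ≤
        4 * B * n * (4 / 3 * n ^ 2) + 4 * B * (4 / 3 * n ^ 2) ^ 2 := by gcongr
    have h6 : |l ^ 2 - 1| ≤ 9 / 4 * n := by
      have h7 : l ^ 2 - 1 = (l - 1) * (l + 1) := by ring
      rw [h7, abs_mul, abs_of_pos (by linarith : 0 < l + 1)]
      calc |l - 1| * (l + 1) ≤ n * (9 / 4) := by gcongr; linarith
        _ = 9 / 4 * n := by ring
    have h7 : l ^ 2 * d2 N x (l⁻¹ • h) - d2 N x h =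
        (l ^ 2 - 1) * d2 N x (l⁻¹ • h) + (d2 N x (l⁻¹ • h) - d2 N x h) := by ring
    rw [h7]
    refine (abs_add_le _ _).trans ?_
    rw [abs_mul, abs_of_nonneg h2]
    have h8 : |l ^ 2 - 1| * d2 N x (l⁻¹ • h) ≤ 9 / 4 * n * (2 * B * (4 / 3 * n) ^ 2) :=
      mul_le_mul h6 (h1.trans h4) h2 (by positivity)
    have h9 : B * n ^ 4 ≤ B * (n ^ 3 / 4) := by
      have : n ^ 4 ≤ n ^ 3 / 4 := by
        have : 0 ≤ n ^ 3 := by positivity
        nlinarith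
      gcongr
    have h10 : 0 ≤ B * n ^ 3 := by positivity
    nlinarith
  rw [d3_eq]
  have e : d2 N (x + h) h - d2 N x h = -(d2 N (x + h) (T h) - d2 N (x + h) h) +
      (d2 N (x + h) (T h) - d2 N (l • T x) (T h)) +
      (l ^ 2 * d2 N x (l⁻¹ • h) - d2 N x h) := by
    rw [t3]; ring
  rw [e]
  have h1 := abs_add_three (-(d2 N (x + h) (T h) - d2 N (x + h) h))
    (d2 N (x + h) (T h) - d2 N (l • T x) (T h)) (l ^ 2 * d2 N x (l⁻¹ • h) - d2 N x h)
  rw [abs_neg] at h1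
  have h2 : K * ε = B * (5 + C) * ε + 18 * ε := by rw [hK]; ring
  have h3 : B * (4 * C + C ^ 2 + 16) * n ^ 3 = B * (4 * C + C ^ 2) * n ^ 3 + 16 * B * n ^ 3 := by
    ring
  linarith

/-- Trivial bound. -/
lemma d3_trivial (x h : E) : |d3 N x h| ≤ 2 * B * ‖h‖ ^ 2 := by
  rw [d3_eq]
  have h1 := hS.d2_le (x + h) h
  have h2 := d2_nonneg (x + h) h
  have h3 := hS.d2_le x h
  have h4 := d2_nonneg x h
  rw [abs_le]
  constructor <;> linarith

lemma d3_unit {C : ℝ} (hC : 0 ≤ C) (hM : Move E C) {x : E} (h : E) (hx : ‖x‖ = 1) :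
    |d3 N x h| ≤ B * (4 * C + C ^ 2 + 16) * ‖h‖ ^ 3 := by
  have hB := hS.pos
  rcases le_or_gt ‖h‖ (1 / 4) with hh | hh
  · exact d3_small hS hC hM hx hh
  · refine (d3_trivial hS x h).trans ?_
    have h1 : 2 * B * ‖h‖ ^ 2 ≤ 2 * B * ‖h‖ ^ 2 * (4 * ‖h‖) := by
      have : 0 ≤ 2 * B * ‖h‖ ^ 2 := by positivity
      nlinarith
    have h2 : 0 ≤ B * (4 * C + C ^ 2 + 8) * ‖h‖ ^ 3 := by positivity
    nlinarith

/-- The bound of the third difference near the unit sphere. -/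
lemma d3_near {C : ℝ} (hC : 0 ≤ C) (hM : Move E C) {x w h : E} {t : ℝ} (hx : ‖x‖ = 1)
    (hw : ‖w‖ ≤ t) (hh : ‖h‖ ≤ t) :
    |d3 N (x + w) h| ≤ 2 * (B * (4 * C + C ^ 2 + 16)) * t ^ 3 := by
  have hB := hS.pos
  have ht : 0 ≤ t := (norm_nonneg _).trans hw
  set D : ℝ := B * (4 * C + C ^ 2 + 16) with hD
  have hD0 : 16 * B ≤ D := by
    rw [hD]
    have : 0 ≤ B * (4 * C + C ^ 2) := by positivity
    linarith
  rcases le_or_gt t (1 / 2) with h1 | h1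
  · set c : ℝ := ‖x + w‖ with hc
    have hc1 : 1 / 2 ≤ c := by
      have := norm_sub_le_norm_add x w
      rw [hx] at this
      linarith
    have hc0 : 0 < c := by linarith
    have e1 : x + w = c • (c⁻¹ • (x + w)) := by
      rw [smul_smul, mul_inv_cancel₀ hc0.ne', one_smul]
    have e2 : h = c • (c⁻¹ • h) := by rw [smul_smul, mul_inv_cancel₀ hc0.ne', one_smul]
    have hu : ‖c⁻¹ • (x + w)‖ = 1 := by
      rw [norm_smul, norm_inv, hc, norm_norm, inv_mul_cancel₀ hc0.ne']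
    have h2 := d3_unit hS hC hM (c⁻¹ • h) hu
    rw [← hD] at h2
    have h3 : d3 N (x + w) h = c ^ 2 * d3 N (c⁻¹ • (x + w)) (c⁻¹ • h) := by
      rw [← d3_smul, ← e1, ← e2]
    rw [h3, abs_mul, abs_of_pos (by positivity : 0 < c ^ 2)]
    calc c ^ 2 * |d3 N (c⁻¹ • (x + w)) (c⁻¹ • h)| ≤ c ^ 2 * (D * ‖c⁻¹ • h‖ ^ 3) := by gcongr
      _ = c⁻¹ * (D * ‖h‖ ^ 3) := by
          rw [norm_smul, norm_inv, Real.norm_eq_abs, abs_of_pos hc0]
          field_simp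
      _ ≤ 2 * (D * t ^ 3) := by
          have : c⁻¹ ≤ 2 := by
            rw [inv_le_comm₀ hc0 (by norm_num)]
            linarith
          gcongr
      _ = 2 * D * t ^ 3 := by ring
  · refine (d3_trivial hS (x + w) h).trans ?_
    have h2 : 2 * B * ‖h‖ ^ 2 ≤ 2 * B * t ^ 2 := by gcongr
    have h3 : 2 * B * t ^ 2 ≤ 2 * B * t ^ 2 * (2 * t) := by
      have : 0 ≤ 2 * B * t ^ 2 := by positivity
      nlinarith
    have h4 : 0 ≤ (D - 2 * B) * t ^ 3 := by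
      have : 0 ≤ D - 2 * B := by linarith
      positivity
    nlinarith

/-- The bound of the mixed third difference. -/
lemma m3_le {C : ℝ} (hC : 0 ≤ C) (hM : Move E C) {x : E} (hx : ‖x‖ = 1) (u v z : E) :
    |m3 N x u v z| ≤ 14 * (B * (4 * C + C ^ 2 + 16)) * (‖u‖ + ‖v‖ + ‖z‖) ^ 3 := by
  set D : ℝ := B * (4 * C + C ^ 2 + 16) with hD
  set t : ℝ := ‖u‖ + ‖v‖ + ‖z‖ with ht
  have hu := norm_nonneg u
  have hv := norm_nonneg v
  have hz := norm_nonneg z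
  have key : ∀ w h : E, ‖w‖ ≤ t → ‖h‖ ≤ t → |d3 N (x + w) h| ≤ 2 * D * t ^ 3 :=
    fun w h hw hh => d3_near hS hC hM hx hw hh
  have n2 : ‖(1 / 2 : ℝ) • v‖ ≤ ‖v‖ := by
    rw [norm_smul, Real.norm_eq_abs, abs_of_pos (by norm_num : (0 : ℝ) < 1 / 2)]
    linarith
  have n3 : ‖(1 / 3 : ℝ) • z‖ ≤ ‖z‖ := by
    rw [norm_smul, Real.norm_eq_abs, abs_of_pos (by norm_num : (0 : ℝ) < 1 / 3)]
    linarith
  have a1 := key z (-((1 / 3 : ℝ) • z)) (by linarith) (by rw [norm_neg]; linarith)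
  have a2 := key v (-((1 / 2 : ℝ) • v)) (by linarith) (by rw [norm_neg]; linarith)
  have a3 := key (v + z) (-((1 / 2 : ℝ) • v + (1 / 3 : ℝ) • z))
    ((norm_add_le _ _).trans (by linarith))
    (by rw [norm_neg]; exact (norm_add_le _ _).trans (by linarith))
  have a4 := key u (-u) (by linarith) (by rw [norm_neg]; linarith)
  have a5 := key (u + z) (-(u + (1 / 3 : ℝ) • z)) ((norm_add_le _ _).trans (by linarith))
    (by rw [norm_neg]; exact (norm_add_le _ _).trans (by linarith))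
  have a6 := key (u + v) (-(u + (1 / 2 : ℝ) • v)) ((norm_add_le _ _).trans (by linarith))
    (by rw [norm_neg]; exact (norm_add_le _ _).trans (by linarith))
  have a7 := key (u + v + z) (-(u + (1 / 2 : ℝ) • v + (1 / 3 : ℝ) • z))
    (norm_add₃_le) (by
      rw [norm_neg]
      exact (norm_add₃_le).trans (by linarith))
  rw [← add_assoc] at a3 a5 a6 a7
  rw [← add_assoc] at a7
  rw [m3_eq]
  rw [abs_le] at a1 a2 a3 a4 a5 a6 a7 ⊢
  constructor <;>
    linarith [a1.1, a1.2, a2.1, a2.2, a3.1, a3.2, a4.1, a4.2, a5.1, a5.2, a6.1, a6.2, a7.1, a7.2]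

end Pool.Agent.Helper53.BM.Lip
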