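import Pool.Agent.Helper53.BM.Lip.Form

set_option autoImplicit false

open Filter Topology

namespace Pool.Agent.Helper53.BM.Lip

variable {E : Type*} [NormedAddCommGroup E] [NormedSpace ℝ E]
variable {B : ℝ} (hS : Smooth E B)
include hS

lemma Hess.euler {M : ℝ} {w : E} {G : E →L[ℝ] E →L[ℝ] ℝ} (hG : Hess B M w G)
    (hw : ‖w‖ = 1) : G w = J w := by
  have key : ∀ t : ℝ, 0 < t → ‖J w - G w‖ ≤ |M| * t := by
    intro t ht
    have h1 := hG.diff (t • w)
    have e1 : w + t • w = (1 + t) • w := by module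
    have e2 : J ((1 + t) • w) - J w - G (t • w) = t • (J w - G w) := by
      rw [hS.J_smul, map_smul]
      module
    rw [e1, e2, norm_smul, norm_smul, hw, mul_one, Real.norm_eq_abs, abs_of_pos ht] at h1
    have h2 : t * ‖J w - G w‖ ≤ t * (|M| * t) := by
      refine h1.trans ?_
      have := le_abs_self M
      have h3 : M * t ^ 2 ≤ |M| * t ^ 2 := by gcongr
      linarith
    exact le_of_mul_le_mul_left h2 ht
  have h0 : ‖J w - G w‖ ≤ 0 := by
    refine le_of_forall_pos_le_add fun ε hε => ?_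
    have h1 := key (ε / (|M| + 1)) (by positivity)
    have h2 : |M| * (ε / (|M| + 1)) ≤ ε := by
      rw [mul_div_assoc', div_le_iff₀ (by positivity)]
      nlinarith [abs_nonneg M]
    linarith
  rw [norm_le_zero_iff, sub_eq_zero] at h0
  exact h0.symm

omit hS in
/-- First order condition at an approximate minimum. -/
lemma first_order {M : ℝ} {w x : E} {G : E →L[ℝ] E →L[ℝ] ℝ} (hB : 0 < B) (hG : Hess B M w G)
    (hx : ‖x‖ = 1) {m δ : ℝ} (hm : 0 ≤ m) (hδ : 0 < δ)
    (hlow : ∀ z, m * ‖z‖ ^ 2 ≤ G z z) (hmin : G x x ≤ m + δ ^ 2) (z : E) :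
    |G z x - m * J x z| ≤ (1 + 2 * B) / 2 * δ * ‖z‖ := by
  rcases eq_or_ne z 0 with hz | hz
  · simp [hz]
  have hzn : 0 < ‖z‖ := norm_pos_iff.mpr hz
  have key : ∀ t : ℝ, -(2 * t * (G z x - m * J x z)) ≤ δ ^ 2 + 2 * B * t ^ 2 * ‖z‖ ^ 2 := by
    intro t
    have h1 := hlow (x + t • z)
    have h2 := lo x (t • z)
    have h3 := (le_abs_self _).trans (hG.bound z z)
    rw [hx, one_pow, map_smul, smul_eq_mul] at h2
    simp only [map_add, map_smul, add_apply, smul_apply, smul_eq_mul] at h1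
    rw [hG.symm x z] at h1
    have h4 : m * (1 + 2 * (t * J x z)) ≤ m * ‖x + t • z‖ ^ 2 := by gcongr
    have h5 : t ^ 2 * G z z ≤ t ^ 2 * (2 * B * ‖z‖ * ‖z‖) := by gcongr
    nlinarith
  have e : 2 * B * (δ / ‖z‖) ^ 2 * ‖z‖ ^ 2 = 2 * B * δ ^ 2 := by
    field_simp
  have h1 := key (δ / ‖z‖)
  have h2 := key (-(δ / ‖z‖))
  rw [neg_sq] at h2
  rw [e] at h1 h2
  have hd : 0 < δ / ‖z‖ := by positivity
  have e2 : (1 + 2 * B) / 2 * δ * ‖z‖ = (1 + 2 * B) / 2 * δ ^ 2 / (δ / ‖z‖) := by
    field_simp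
  rw [e2, le_div_iff₀ hd]
  rcases abs_cases (G z x - m * J x z) with h | h
  · rw [h.1]; nlinarith
  · rw [h.1]; nlinarith

/-- **Duality**: if `g_w x x` is almost minimal then `g_x w w` is almost maximal. -/
lemma duality {C M : ℝ} (hC : 0 ≤ C) (hM : Move E C) (hM0 : 0 ≤ M) {w x : E} (hw : ‖w‖ = 1)
    (hx : ‖x‖ = 1) {Gw Gx : E →L[ℝ] E →L[ℝ] ℝ} (hGw : Hess B M w Gw) (hGx : Hess B M x Gx)
    {m δ : ℝ} (hm : 0 ≤ m) (hδ : 0 < δ) (hlow : ∀ z, m * ‖z‖ ^ 2 ≤ Gw z z)
    (hmin : Gw x x ≤ m + δ ^ 2) : 1 ≤ m * Gx w w + (1 + 2 * B) * (C + 2) * δ := by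
  have hB := hS.pos
  have hfo := first_order hB hGw hx hm hδ hlow hmin
  set L : ℝ := (1 + 2 * B) / 2 * δ with hL
  have hL0 : 0 ≤ L := by positivity
  set C2 : ℝ := C + 1 with hC2
  have hC20 : 0 ≤ C2 := by positivity
  set Q : ℝ := 1 + m * (M + B) + 3 / 2 * (M * C2 ^ 2) with hQ
  have hQ0 : 0 < Q := by positivity
  have key : ∀ s : ℝ, 0 < s → s ≤ 1 / 2 → 1 - m * Gx w w ≤ L * (3 / 2 * C2 + 1) + s * Q := by
    intro s hs hs2
    have hsw : ‖s • w‖ = s := by rw [norm_smul, hw, mul_one, Real.norm_eq_abs, abs_of_pos hs]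
    obtain ⟨T, hT1, hT2⟩ := hM x (s • w) hx (by rw [hsw]; exact hs2) (s ^ 2) (by positivity)
    rw [hsw] at hT2
    set l : ℝ := ‖x + s • w‖ with hl
    have hl3 : |l - 1| ≤ s := by
      have h3 := abs_norm_sub_norm_le (x + s • w) x
      rwa [hx, add_sub_cancel_left, hsw] at h3
    have hl2 : l ≤ 3 / 2 := by linarith [(abs_le.mp hl3).2]
    have hl0 : 0 ≤ l := norm_nonneg _
    set w' : E := T.symm w with hw'
    have hww : ‖w' - w‖ ≤ C2 * s := by
      have h1 : ‖w' - w‖ = ‖T w - w‖ := by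
        rw [← LinearIsometryEquiv.norm_map T, map_sub, hw', T.apply_symm_apply, norm_sub_rev]
      have h2 : T (s • w) - s • w = s • (T w - w) := by rw [map_smul]; module
      rw [h2, norm_smul, Real.norm_eq_abs, abs_of_pos hs] at hT2
      rw [h1]
      have h3 : s * ‖T w - w‖ ≤ s * (C2 * s) := by
        refine hT2.trans (le_of_eq ?_)
        rw [hC2]; ring
      exact le_of_mul_le_mul_left h3 hs
    -- (i)
    have hJw : ∀ z : E, |J w z| ≤ ‖z‖ := by
      intro z
      have h1 := (J w).le_opNorm z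
      rwa [norm_J, hw, one_mul, Real.norm_eq_abs] at h1
    have e1 : J w' x = J w (T x) := by
      rw [hw', hS.J_map T.symm, push_apply, LinearIsometryEquiv.symm_symm]
    have i1 : |l * J w' x - (s + J w x)| ≤ s ^ 2 := by
      have h1 := (hJw (l • T x - (x + s • w))).trans hT1
      rw [map_sub, map_add, map_smul, map_smul, smul_eq_mul, smul_eq_mul, J_apply_self, hw,
        ← e1] at h1
      have e : l * J w' x - (s + J w x) = l * J w' x - (J w x + s * 1 ^ 2) := by ring
      rw [e]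
      exact h1
    -- (ii)
    have i2 : |l * J x w' - (s * Gx w w + J x w)| ≤ (M + B) * s ^ 2 := by
      have h1 := (hGx.diff (s • w))
      rw [hsw] at h1
      have h2 := (J (x + s • w) - J x - Gx (s • w)).le_opNorm w
      rw [hw, mul_one, Real.norm_eq_abs] at h2
      have h3 := h2.trans h1
      simp only [sub_apply, map_smul, smul_apply, smul_eq_mul] at h3
      have h4 := hS.J_sub_apply (l • T x) (x + s • w) w
      rw [hw, mul_one, hS.J_smul, hS.J_map T] at h4
      simp only [smul_apply, smul_eq_mul, push_apply] at h4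
      have h5 : B * ‖l • T x - (x + s • w)‖ ≤ B * s ^ 2 := by gcongr
      have h6 := h4.trans h5
      rw [← hw'] at h6
      rw [abs_le] at h3 h6 ⊢
      constructor <;> linarith [h3.1, h3.2, h6.1, h6.2]
    -- (iii)
    have i3 : |(J w' x - m * J x w') - (J w x - m * J x w)| ≤ L * (C2 * s) + M * (C2 * s) ^ 2 := by
      have h1 := hGw.diff (w' - w)
      rw [add_sub_cancel] at h1
      have h2 := (J w' - J w - Gw (w' - w)).le_opNorm x
      rw [hx, mul_one, Real.norm_eq_abs] at h2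
      have h3 : |(J w' - J w - Gw (w' - w)) x| ≤ M * (C2 * s) ^ 2 :=
        (h2.trans h1).trans (by gcongr)
      have h4 : |Gw (w' - w) x - m * J x (w' - w)| ≤ L * (C2 * s) :=
        (hfo (w' - w)).trans (by gcongr)
      simp only [sub_apply, map_sub] at h3 h4
      rw [abs_le] at h3 h4 ⊢
      constructor <;> linarith [h3.1, h3.2, h4.1, h4.2]
    -- (iv)
    have i4 : |J w x - m * J x w| ≤ L := by
      have h1 := hfo w
      rw [hGw.euler hS hw, hw, mul_one] at h1
      exact h1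
    -- conclusion
    have i5 : |l * (J w' x - m * J x w') - (J w x - m * J x w)| ≤
        3 / 2 * (L * (C2 * s) + M * (C2 * s) ^ 2) + s * L := by
      have e : l * (J w' x - m * J x w') - (J w x - m * J x w) =
          l * ((J w' x - m * J x w') - (J w x - m * J x w)) + (l - 1) * (J w x - m * J x w) := by
        ring
      rw [e]
      refine (abs_add_le _ _).trans ?_
      rw [abs_mul, abs_mul, abs_of_nonneg hl0]
      gcongr
    have i6 : m * |l * J x w' - (s * Gx w w + J x w)| ≤ m * ((M + B) * s ^ 2) := by gcongr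
    have i7 : s * (1 - m * Gx w w) ≤ s * (L * (3 / 2 * C2 + 1) + s * Q) := by
      have j1 := (abs_le.mp i1).1
      have j1' := (abs_le.mp i1).2
      have j5 := (abs_le.mp i5).2
      have j6 := (le_abs_self (l * J x w' - (s * Gx w w + J x w)))
      have j6' : m * (l * J x w' - (s * Gx w w + J x w)) ≤ m * ((M + B) * s ^ 2) :=
        (mul_le_mul_of_nonneg_left j6 hm).trans i6
      have j7 := neg_abs_le (l * J x w' - (s * Gx w w + J x w))
      have j7' : -(m * ((M + B) * s ^ 2)) ≤ m * (l * J x w' - (s * Gx w w + J x w)) := by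
        have := mul_le_mul_of_nonneg_left j7 hm
        linarith
      have eQ : s * (L * (3 / 2 * C2 + 1) + s * Q) =
          3 / 2 * (L * (C2 * s) + M * (C2 * s) ^ 2) + s * L + s ^ 2 + m * ((M + B) * s ^ 2) := by
        rw [hQ]; ring
      rw [eQ]
      nlinarith
    exact le_of_mul_le_mul_left i7 hs
  have hfin : 1 - m * Gx w w ≤ L * (3 / 2 * C2 + 1) := by
    refine le_of_forall_pos_le_add fun ε hε => ?_
    have h1 := key (min (1 / 2) (ε / Q)) (lt_min (by norm_num) (by positivity)) (min_le_left _ _)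
    have h2 : min (1 / 2) (ε / Q) * Q ≤ ε := by
      have : min (1 / 2) (ε / Q) ≤ ε / Q := min_le_right _ _
      rwa [le_div_iff₀ hQ0] at this
    linarith
  have h3 : L * (3 / 2 * C2 + 1) ≤ (1 + 2 * B) * (C + 2) * δ := by
    have e : (1 + 2 * B) * (C + 2) * δ = L * (2 * (C + 2)) := by rw [hL]; ring
    rw [e]
    gcongr
    rw [hC2]
    linarith
  linarith

end Pool.Agent.Helper53.BM.Lip
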