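import Pool.Agent.Helper53.BM.Lip.Duality

set_option autoImplicit false

open Filter Topology

namespace Pool.Agent.Helper53.BM.Lip

variable {E : Type*} [NormedAddCommGroup E] [NormedSpace ℝ E]

/-- Inner products between the norm and `K` times the norm. -/
def Adm (K : ℝ) (h : E →L[ℝ] E →L[ℝ] ℝ) : Prop :=
  (∀ u v, h u v = h v u) ∧ ∀ z, h z z ≤ ‖z‖ ^ 2 ∧ ‖z‖ ^ 2 ≤ K * h z z

lemma Adm.nonneg {K : ℝ} (hK : 0 < K) {h : E →L[ℝ] E →L[ℝ] ℝ} (ha : Adm K h) (z : E) :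
    0 ≤ h z z := by
  have h1 := (ha.2 z).2
  have h2 : 0 ≤ K * h z z := le_trans (by positivity) h1
  exact nonneg_of_mul_nonneg_right h2 hK

/-- From unit vectors to all vectors. -/
lemma abs_le_of_unit {h : E →L[ℝ] E →L[ℝ] ℝ} (h1 : ∀ u v : E, ‖u‖ = 1 → ‖v‖ = 1 → |h u v| ≤ 1)
    (u v : E) : |h u v| ≤ ‖u‖ * ‖v‖ := by
  rcases eq_or_ne u 0 with hu | hu
  · simp [hu]
  rcases eq_or_ne v 0 with hv | hv
  · simp [hv]
  have hun : 0 < ‖u‖ := norm_pos_iff.mpr hu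
  have hvn : 0 < ‖v‖ := norm_pos_iff.mpr hv
  have h2 := h1 (‖u‖⁻¹ • u) (‖v‖⁻¹ • v)
    (by rw [norm_smul, norm_inv, norm_norm, inv_mul_cancel₀ hun.ne'])
    (by rw [norm_smul, norm_inv, norm_norm, inv_mul_cancel₀ hvn.ne'])
  simp only [map_smul, smul_apply, smul_eq_mul] at h2
  rw [abs_mul, abs_mul, abs_of_pos (by positivity : 0 < ‖v‖⁻¹),
    abs_of_pos (by positivity : 0 < ‖u‖⁻¹)] at h2
  have h3 : ‖u‖ * ‖v‖ * (‖v‖⁻¹ * (‖u‖⁻¹ * |h u v|)) ≤ ‖u‖ * ‖v‖ * 1 := by gcongr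
  have e : ‖u‖ * ‖v‖ * (‖v‖⁻¹ * (‖u‖⁻¹ * |h u v|)) = |h u v| := by field_simp
  rwa [e, mul_one] at h3

lemma Adm.abs_apply_le {K : ℝ} (hK : 0 < K) {h : E →L[ℝ] E →L[ℝ] ℝ} (ha : Adm K h) (u v : E) :
    |h u v| ≤ ‖u‖ * ‖v‖ := by
  refine abs_le_of_unit (fun u v hu hv => ?_) u v
  have h1 := ha.nonneg hK (u + v)
  have h2 := ha.nonneg hK (u - v)
  have h3 := (ha.2 (u + v)).1
  have h4 := (ha.2 (u - v)).1
  have h5 : ‖u + v‖ ^ 2 ≤ 4 := by
    have : ‖u + v‖ ≤ 2 := (norm_add_le _ _).trans (by rw [hu, hv]; norm_num)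
    nlinarith [norm_nonneg (u + v)]
  have h6 : ‖u - v‖ ^ 2 ≤ 4 := by
    have : ‖u - v‖ ≤ 2 := (norm_sub_le _ _).trans (by rw [hu, hv]; norm_num)
    nlinarith [norm_nonneg (u - v)]
  simp only [map_add, map_sub, add_apply, sub_apply] at h1 h2 h3 h4
  rw [ha.1 v u] at h1 h2 h3 h4
  rw [abs_le]
  constructor <;> linarith

/-- Limits of bounded bilinear forms. -/
lemma exists_limit {ι : Type*} (𝒰 : Ultrafilter ι) (g : ι → E →L[ℝ] E →L[ℝ] ℝ) {M : ℝ}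
    (hb : ∀ i x y, |g i x y| ≤ M * ‖x‖ * ‖y‖) :
    ∃ h : E →L[ℝ] E →L[ℝ] ℝ, ∀ x y, Tendsto (fun i => g i x y) 𝒰 (𝓝 (h x y)) := by
  have hex : ∀ x y, ∃ a : ℝ, |a| ≤ M * ‖x‖ * ‖y‖ ∧
      Tendsto (fun i => g i x y) 𝒰 (𝓝 a) := by
    intro x y
    obtain ⟨a, ha, ha'⟩ := (isCompact_Icc (a := -(M * ‖x‖ * ‖y‖)) (b := M * ‖x‖ * ‖y‖)).ultrafilter_le_nhds
      (𝒰.map fun i => g i x y) (by
        rw [Ultrafilter.coe_map, le_principal_iff, Filter.mem_map]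
        exact Filter.univ_mem' fun i => abs_le.mp (hb i x y))
    exact ⟨a, abs_le.mpr ha, ha'⟩
  choose h hh1 hh2 using hex
  have hadd1 : ∀ x x' y, h (x + x') y = h x y + h x' y := by
    intro x x' y
    refine tendsto_nhds_unique (hh2 (x + x') y) ?_
    refine ((hh2 x y).add (hh2 x' y)).congr fun i => ?_
    simp
  have hsmul1 : ∀ (c : ℝ) x y, h (c • x) y = c • h x y := by
    intro c x y
    refine tendsto_nhds_unique (hh2 (c • x) y) ?_
    refine ((hh2 x y).const_smul c).congr fun i => ?_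
    simp
  have hadd2 : ∀ x y y', h x (y + y') = h x y + h x y' := by
    intro x y y'
    refine tendsto_nhds_unique (hh2 x (y + y')) ?_
    refine ((hh2 x y).add (hh2 x y')).congr fun i => ?_
    simp
  have hsmul2 : ∀ (c : ℝ) x y, h x (c • y) = c • h x y := by
    intro c x y
    refine tendsto_nhds_unique (hh2 x (c • y)) ?_
    refine ((hh2 x y).const_smul c).congr fun i => ?_
    simp
  refine ⟨LinearMap.mkContinuous₂ (LinearMap.mk₂ ℝ h hadd1 hsmul1 hadd2 hsmul2) M ?_, ?_⟩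
  · intro x y
    simpa using hh1 x y
  · intro x y
    simpa using hh2 x y

/-- Homogeneity: from unit vectors to all vectors. -/
lemma unit_le {a b : E → ℝ} (ha : ∀ (c : ℝ) v, a (c • v) = c ^ 2 * a v)
    (hb : ∀ (c : ℝ) v, b (c • v) = c ^ 2 * b v) (h : ∀ v, ‖v‖ = 1 → a v ≤ b v) (v : E) :
    a v ≤ b v := by
  rcases eq_or_ne v 0 with hv | hv
  · subst hv
    have h1 : a 0 = 0 := by simpa using ha 0 0
    have h2 : b 0 = 0 := by simpa using hb 0 0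
    rw [h1, h2]
  · have hvn : 0 < ‖v‖ := norm_pos_iff.mpr hv
    have h1 := h (‖v‖⁻¹ • v) (by rw [norm_smul, norm_inv, norm_norm, inv_mul_cancel₀ hvn.ne'])
    rw [ha, hb] at h1
    exact le_of_mul_le_mul_left h1 (by positivity)

lemma hom_form (h : E →L[ℝ] E →L[ℝ] ℝ) (a : ℝ) (c : ℝ) (v : E) :
    a * h (c • v) (c • v) = c ^ 2 * (a * h v v) := by
  simp only [map_smul, smul_apply, smul_eq_mul]
  ring

lemma hom_norm (a : ℝ) (c : ℝ) (v : E) : a * ‖c • v‖ ^ 2 = c ^ 2 * (a * ‖v‖ ^ 2) := by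
  rw [norm_smul, Real.norm_eq_abs, mul_pow, sq_abs]
  ring

/-- The best constant. -/
lemma exists_best {e : E} (he : ‖e‖ = 1) (hex : ∃ K : ℝ, 0 < K ∧ ∃ h : E →L[ℝ] E →L[ℝ] ℝ, Adm K h) :
    ∃ κ : ℝ, 1 ≤ κ ∧ (∃ h : E →L[ℝ] E →L[ℝ] ℝ, Adm κ h) ∧
      ∀ (K : ℝ) (h : E →L[ℝ] E →L[ℝ] ℝ), 0 < K → Adm K h → κ ≤ K := by
  set S : Set ℝ := {K | 0 < K ∧ ∃ h : E →L[ℝ] E →L[ℝ] ℝ, Adm K h} with hS
  have hne : S.Nonempty := hex
  have h1 : ∀ K ∈ S, 1 ≤ K := by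
    rintro K ⟨hK, h, hh⟩
    have h1 := (hh.2 e).1
    have h2 := (hh.2 e).2
    rw [he, one_pow] at h1 h2
    nlinarith
  have hbd : BddBelow S := ⟨1, h1⟩
  set κ : ℝ := sInf S with hκ
  have hκ1 : 1 ≤ κ := le_csInf hne h1
  have hseq : ∀ n : ℕ, ∃ K h, K < κ + 1 / (n + 1) ∧ 0 < K ∧ Adm (E := E) K h := by
    intro n
    obtain ⟨K, ⟨hK, h, hh⟩, hK2⟩ := exists_lt_of_csInf_lt hne
      (show sInf S < κ + 1 / ((n : ℝ) + 1) by
        rw [← hκ]
        linarith [show 0 < 1 / ((n : ℝ) + 1) by positivity])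
    exact ⟨K, h, hK2, hK, hh⟩
  choose K h hK1 hK2 hK3 using hseq
  obtain ⟨g, hg⟩ := exists_limit (hyperfilter ℕ) h (M := 1) (fun i x y => by
    rw [one_mul]
    exact (hK3 i).abs_apply_le (hK2 i) x y)
  refine ⟨κ, hκ1, ⟨g, fun u v => ?_, fun z => ⟨?_, ?_⟩⟩, fun K h hK hh => csInf_le hbd ⟨hK, h, hh⟩⟩
  · exact tendsto_nhds_unique (hg u v) ((hg v u).congr fun i => (hK3 i).1 v u)
  · exact le_of_tendsto (hg z z) (Eventually.of_forall fun i => ((hK3 i).2 z).1)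
  · have hlim : Tendsto (fun n : ℕ => (κ + 1 / ((n : ℝ) + 1)) * h n z z) (hyperfilter ℕ)
        (𝓝 ((κ + 0) * g z z)) := by
      refine Tendsto.mul ?_ (hg z z)
      refine Tendsto.const_add κ ?_
      have h2 : Tendsto (fun n : ℕ => 1 / ((n : ℝ) + 1)) atTop (𝓝 0) :=
        tendsto_one_div_add_atTop_nhds_zero_nat
      exact h2.mono_left (Nat.hyperfilter_le_atTop)
    rw [add_zero] at hlim
    refine ge_of_tendsto hlim (Eventually.of_forall fun i => ?_)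
    refine ((hK3 i).2 z).2.trans ?_
    have := (hK3 i).nonneg (hK2 i) z
    have := (hK1 i).le
    gcongr

section best
variable {κ : ℝ} (hκ : 1 ≤ κ)
    (hmin : ∀ (K : ℝ) (h : E →L[ℝ] E →L[ℝ] ℝ), 0 < K → Adm K h → κ ≤ K)
include hκ hmin

/-- Finitely many optimal inner products have a common near-minimum on the unit sphere. -/
lemma near_min {e : E} (he : ‖e‖ = 1) (H : Finset (E →L[ℝ] E →L[ℝ] ℝ)) (hH : ∀ h ∈ H, Adm κ h)
    {η : ℝ} (hη : 0 < η) : ∃ u : E, ‖u‖ = 1 ∧ ∀ h ∈ H, κ * h u u ≤ 1 + η := by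
  have hκ0 : 0 < κ := by linarith
  rcases H.eq_empty_or_nonempty with hE | hne
  · exact ⟨e, he, by simp [hE]⟩
  by_contra hcon
  push Not at hcon
  set n : ℝ := (H.card : ℝ) with hn
  have hn0 : 0 < n := by
    rw [hn]
    exact_mod_cast hne.card_pos
  set g : E →L[ℝ] E →L[ℝ] ℝ := n⁻¹ • ∑ h ∈ H, h with hg
  have hgapp : ∀ u v, g u v = n⁻¹ * ∑ h ∈ H, h u v := by
    intro u v
    simp [hg]
  have hup : ∀ u, g u u ≤ ‖u‖ ^ 2 := by
    intro u
    rw [hgapp]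
    have h1 : ∑ h ∈ H, h u u ≤ ∑ _h ∈ H, ‖u‖ ^ 2 := Finset.sum_le_sum fun h hh => ((hH h hh).2 u).1
    rw [Finset.sum_const, nsmul_eq_mul, ← hn] at h1
    calc n⁻¹ * ∑ h ∈ H, h u u ≤ n⁻¹ * (n * ‖u‖ ^ 2) := by gcongr
      _ = ‖u‖ ^ 2 := by field_simp
  have hlow : ∀ u : E, ‖u‖ = 1 → 1 + η / n ≤ κ * g u u := by
    intro u hu
    obtain ⟨h₀, hh₀, hgt⟩ := hcon u hu
    have h1 : κ * h₀ u u - 1 ≤ ∑ h ∈ H, (κ * h u u - 1) :=
      Finset.single_le_sum (f := fun h : E →L[ℝ] E →L[ℝ] ℝ => κ * h u u - 1) (fun h hh => by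
        have := ((hH h hh).2 u).2
        rw [hu, one_pow] at this
        linarith) hh₀
    rw [Finset.sum_sub_distrib, Finset.sum_const, nsmul_eq_mul, ← hn, mul_one, ← Finset.mul_sum] at h1
    rw [hgapp]
    have h2 : κ * (n⁻¹ * ∑ h ∈ H, h u u) = n⁻¹ * (κ * ∑ h ∈ H, h u u) := by ring
    rw [h2]
    have h3 : n⁻¹ * (n + η) ≤ n⁻¹ * (κ * ∑ h ∈ H, h u u) := by
      gcongr
      linarith
    refine le_trans (le_of_eq ?_) h3
    field_simp
  have hη' : 0 < η / n := by positivity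
  have hadm : Adm (κ / (1 + η / n)) g := by
    refine ⟨fun u v => ?_, fun z => ⟨hup z, ?_⟩⟩
    · rw [hgapp, hgapp]
      congr 1
      exact Finset.sum_congr rfl fun h hh => (hH h hh).1 u v
    · have h1 := unit_le (a := fun v => (1 + η / n) * ‖v‖ ^ 2) (b := fun v => κ * g v v)
        (fun c v => hom_norm _ c v) (fun c v => hom_form g κ c v) (fun v hv => by
          simp only [hv, one_pow, mul_one]
          exact hlow v hv) z
      have e : κ / (1 + η / n) * g z z = (κ * g z z) / (1 + η / n) := by ring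
      rw [e, le_div_iff₀ (by linarith)]
      linarith
  have h1 := hmin _ g (by positivity) hadm
  rw [le_div_iff₀ (by linarith)] at h1
  nlinarith

/-- An optimal inner product almost touches the norm from below. -/
lemma near_max {h : E →L[ℝ] E →L[ℝ] ℝ} (hh : Adm κ h) {η : ℝ} (hη : 0 < η) :
    ∃ u : E, ‖u‖ = 1 ∧ 1 - η ≤ h u u := by
  have hκ0 : 0 < κ := by linarith
  by_contra hcon
  push Not at hcon
  set c : ℝ := max (1 / 2) (1 - η) with hc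
  have hc0 : 0 < c := lt_of_lt_of_le (by norm_num) (le_max_left _ _)
  have hc1 : c < 1 := max_lt (by norm_num) (by linarith)
  have hup : ∀ z, h z z ≤ c * ‖z‖ ^ 2 := by
    intro z
    have h1 := unit_le (a := fun v => 1 * h v v) (b := fun v => c * ‖v‖ ^ 2)
        (fun a v => hom_form h 1 a v) (fun a v => hom_norm _ a v) (fun v hv => by
          simp only [hv, one_pow, mul_one, one_mul]
          exact (hcon v hv).le.trans (le_max_right _ _)) z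
    simpa using h1
  have hadm : Adm (κ * c) (c⁻¹ • h) := by
    refine ⟨fun u v => ?_, fun z => ⟨?_, ?_⟩⟩
    · simp only [smul_apply, smul_eq_mul]
      rw [hh.1]
    · simp only [smul_apply, smul_eq_mul]
      rw [inv_mul_le_iff₀ hc0]
      exact hup z
    · simp only [smul_apply, smul_eq_mul]
      have e : κ * c * (c⁻¹ * h z z) = κ * h z z := by field_simp
      rw [e]
      exact (hh.2 z).2
  have h1 := hmin _ _ (by positivity) hadm
  nlinarith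

end best

/-- Conjugation of a form by an isometry. -/
noncomputable def conj (h : E →L[ℝ] E →L[ℝ] ℝ) (T : E ≃ₗᵢ[ℝ] E) : E →L[ℝ] E →L[ℝ] ℝ :=
  h.bilinearComp (T.toContinuousLinearEquiv : E →L[ℝ] E) (T.toContinuousLinearEquiv : E →L[ℝ] E)

@[simp] lemma conj_apply (h : E →L[ℝ] E →L[ℝ] ℝ) (T : E ≃ₗᵢ[ℝ] E) (u v : E) :
    conj h T u v = h (T u) (T v) := rfl

lemma Adm.conj {K : ℝ} {h : E →L[ℝ] E →L[ℝ] ℝ} (hh : Adm K h) (T : E ≃ₗᵢ[ℝ] E) :
    Adm K (conj h T) := by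
  refine ⟨fun u v => ?_, fun z => ?_⟩
  · rw [conj_apply, conj_apply, hh.1]
  · rw [conj_apply]
    have := hh.2 (T z)
    rwa [LinearIsometryEquiv.norm_map] at this

/-- Continuity of an admissible form. -/
lemma Adm.near {K : ℝ} (hK : 0 < K) {h : E →L[ℝ] E →L[ℝ] ℝ} (hh : Adm K h) {u y : E} {ε : ℝ}
    (hu : ‖u‖ = 1) (hε : ε ≤ 1) (hy : ‖y - u‖ ≤ ε) : |h y y - h u u| ≤ 3 * ε := by
  have hε0 : 0 ≤ ε := (norm_nonneg _).trans hy
  have e : h y y - h u u = 2 * h u (y - u) + h (y - u) (y - u) := by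
    simp only [map_sub, sub_apply]
    rw [hh.1 y u]
    ring
  rw [e]
  have h1 := hh.abs_apply_le hK u (y - u)
  have h2 := hh.abs_apply_le hK (y - u) (y - u)
  rw [hu, one_mul] at h1
  have h3 : ‖y - u‖ * ‖y - u‖ ≤ ε * 1 := by
    have := norm_nonneg (y - u)
    nlinarith
  calc |2 * h u (y - u) + h (y - u) (y - u)| ≤ |2 * h u (y - u)| + |h (y - u) (y - u)| :=
        abs_add_le _ _
    _ ≤ 2 * ε + ε := by
        rw [abs_mul, abs_of_pos (by norm_num : (0 : ℝ) < 2)]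
        linarith
    _ = 3 * ε := by ring

end Pool.Agent.Helper53.BM.Lip
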