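import Pool.Agent.Helper53.BM.Lip.Ellipsoid

set_option autoImplicit false

open Filter Topology

namespace Pool.Agent.Helper53.BM.Lip

variable {E : Type*} [NormedAddCommGroup E] [NormedSpace ℝ E]

/-- Sum of the expansions in two opposite directions. -/
lemma Hess.two_sided {B M : ℝ} {p : E} {G : E →L[ℝ] E →L[ℝ] ℝ} (hG : Hess B M p G)
    (hp : ‖p‖ = 1) {v : E} (hv : ‖v‖ = 1) {t : ℝ} (ht : 0 < t) :
    |‖p + t • v‖ ^ 2 + ‖p - t • v‖ ^ 2 - 2 - 2 * t ^ 2 * G v v| ≤ 2 * (M * t ^ 3) := by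
  have h1 := hG.taylor (t • v)
  have h2 := hG.taylor (-(t • v))
  have hn : ‖t • v‖ = t := by rw [norm_smul, hv, mul_one, Real.norm_eq_abs, abs_of_pos ht]
  rw [hn, hp] at h1
  rw [norm_neg, hn, hp, ← sub_eq_add_neg] at h2
  simp only [map_neg, map_smul, neg_apply, smul_apply, smul_eq_mul] at h1 h2
  rw [abs_le] at h1 h2 ⊢
  constructor <;> nlinarith [h1.1, h1.2, h2.1, h2.2]

lemma form_two_sided {h : E →L[ℝ] E →L[ℝ] ℝ} (p v : E) (t : ℝ) :
    h (p + t • v) (p + t • v) + h (p - t • v) (p - t • v) = 2 * h p p + 2 * t ^ 2 * h v v := by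
  simp only [map_add, map_sub, map_smul, add_apply, sub_apply, smul_apply, smul_eq_mul]
  ring

lemma contact_min {B M κ δ t : ℝ} {p v : E} {G h : E →L[ℝ] E →L[ℝ] ℝ} (hG : Hess B M p G)
    (hp : ‖p‖ = 1) (hh : Adm κ h) (hδ : κ * h p p ≤ 1 + δ) (hv : ‖v‖ = 1) (ht : 0 < t) :
    G v v ≤ κ * h v v + δ / t ^ 2 + M * t := by
  have h1 := (abs_le.mp (hG.two_sided hp hv ht)).1
  have h2 := (hh.2 (p + t • v)).2
  have h3 := (hh.2 (p - t • v)).2
  have h4 := form_two_sided (h := h) p v t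
  have h5 : κ * (h (p + t • v) (p + t • v) + h (p - t • v) (p - t • v)) =
      κ * (2 * h p p + 2 * t ^ 2 * h v v) := by rw [h4]
  have ht2 : 0 < t ^ 2 := by positivity
  have h6 : t ^ 2 * G v v ≤ t ^ 2 * (κ * h v v + δ / t ^ 2 + M * t) := by
    have e : t ^ 2 * (κ * h v v + δ / t ^ 2 + M * t) = t ^ 2 * (κ * h v v) + δ + M * t ^ 3 := by
      field_simp
    rw [e]
    nlinarith
  exact le_of_mul_le_mul_left h6 ht2

lemma contact_max {B M κ δ t : ℝ} {p v : E} {G h : E →L[ℝ] E →L[ℝ] ℝ} (hG : Hess B M p G)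
    (hp : ‖p‖ = 1) (hh : Adm κ h) (hδ : 1 - δ ≤ h p p) (hv : ‖v‖ = 1) (ht : 0 < t) :
    h v v ≤ G v v + δ / t ^ 2 + M * t := by
  have h1 := (abs_le.mp (hG.two_sided hp hv ht)).2
  have h2 := (hh.2 (p + t • v)).1
  have h3 := (hh.2 (p - t • v)).1
  have h4 := form_two_sided (h := h) p v t
  have ht2 : 0 < t ^ 2 := by positivity
  have h6 : t ^ 2 * h v v ≤ t ^ 2 * (G v v + δ / t ^ 2 + M * t) := by
    have e : t ^ 2 * (G v v + δ / t ^ 2 + M * t) = t ^ 2 * G v v + δ + M * t ^ 3 := by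
      field_simp
    rw [e]
    nlinarith
  exact le_of_mul_le_mul_left h6 ht2

section
variable {B C M : ℝ} (hS : Smooth E B) (hC : 0 ≤ C) (hM : Move E C) (hM0 : 0 ≤ M)
  {g : E → E →L[ℝ] E →L[ℝ] ℝ} (hg : ∀ x, ‖x‖ = 1 → Hess B M x (g x))
include hS hC hM hM0 hg

/-- The Hessians are uniformly positive. -/
lemma exists_adm {e : E} (he : ‖e‖ = 1) :
    ∃ K : ℝ, 0 < K ∧ ∃ h : E →L[ℝ] E →L[ℝ] ℝ, Adm K h := by
  have hB := hS.pos
  set S : Set ℝ := {r | ∃ w x : E, ‖w‖ = 1 ∧ ‖x‖ = 1 ∧ r = g w x x} with hSdef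
  have hne : S.Nonempty := ⟨_, e, e, he, he, rfl⟩
  have h0 : ∀ r ∈ S, 0 ≤ r := by
    rintro r ⟨w, x, hw, hx, rfl⟩
    exact (hg w hw).nonneg x
  have hbd : BddBelow S := ⟨0, h0⟩
  set m : ℝ := sInf S with hm
  have hm0 : 0 ≤ m := le_csInf hne h0
  have hlow : ∀ w : E, ‖w‖ = 1 → ∀ z, m * ‖z‖ ^ 2 ≤ g w z z := by
    intro w hw z
    have := unit_le (a := fun v => m * ‖v‖ ^ 2) (b := fun v => 1 * g w v v)
      (fun c v => hom_norm _ c v) (fun c v => hom_form (g w) 1 c v) (fun v hv => by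
        simp only [hv, one_pow, mul_one, one_mul]
        exact csInf_le hbd ⟨w, v, hw, hv, rfl⟩) z
    simpa using this
  have hmpos : 0 < m := by
    by_contra hcon
    push Not at hcon
    have hm1 : m = 0 := le_antisymm hcon hm0
    set A : ℝ := (1 + 2 * B) * (C + 2) with hA
    have hA0 : 0 < A := by positivity
    set δ : ℝ := 1 / (2 * A) with hδ
    have hδ0 : 0 < δ := by positivity
    obtain ⟨_, ⟨w, x, hw, hx, rfl⟩, hlt⟩ := exists_lt_of_csInf_lt hne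
      (show sInf S < m + δ ^ 2 by rw [← hm]; linarith [show 0 < δ ^ 2 by positivity])
    have h1 := duality hS hC hM hM0 hw hx (hg w hw) (hg x hx) hm0 hδ0 (hlow w hw) hlt.le
    rw [hm1, zero_mul, zero_add, ← hA] at h1
    have h2 : A * δ = 1 / 2 := by rw [hδ]; field_simp
    linarith
  refine ⟨2 * B / m, by positivity, (1 / (2 * B)) • g e, ?_, fun z => ⟨?_, ?_⟩⟩
  · intro u v
    simp only [smul_apply, smul_eq_mul]
    rw [(hg e he).symm]
  · simp only [smul_apply, smul_eq_mul]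
    have h1 := (le_abs_self _).trans ((hg e he).bound z z)
    rw [one_div, inv_mul_le_iff₀ (by positivity)]
    nlinarith
  · simp only [smul_apply, smul_eq_mul]
    have h1 := hlow e he z
    have e1 : 2 * B / m * (1 / (2 * B) * g e z z) = g e z z / m := by field_simp
    rw [e1, le_div_iff₀ hmpos]
    linarith

section best
variable (hat : ∀ x y : E, ‖x‖ = 1 → ‖y‖ = 1 → ∀ ε : ℝ, 0 < ε → ∃ T : E ≃ₗᵢ[ℝ] E, ‖T x - y‖ ≤ ε)
    {κ : ℝ} (hκ : 1 ≤ κ)
    (hmin : ∀ (K : ℝ) (h : E →L[ℝ] E →L[ℝ] ℝ), 0 < K → Adm K h → κ ≤ K)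
    {h₀ : E →L[ℝ] E →L[ℝ] ℝ} (hh₀ : Adm κ h₀)
include hat hκ hmin hh₀

omit hS hC hM hM0 hg in
lemma transport_min {z : E} (hz : ‖z‖ = 1) {δ : ℝ} (hδ : 0 < δ) :
    ∃ h : E →L[ℝ] E →L[ℝ] ℝ, Adm κ h ∧ κ * h z z ≤ 1 + δ := by
  have hκ0 : 0 < κ := by linarith
  obtain ⟨u, hu, hu2⟩ := near_min hκ hmin hz {h₀} (by simpa using hh₀) (η := δ / 2) (by positivity)
  have hu3 := hu2 h₀ (Finset.mem_singleton_self _)
  set ε : ℝ := min 1 (δ / (6 * κ)) with hε
  have hε0 : 0 < ε := lt_min one_pos (by positivity)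
  obtain ⟨T, hT⟩ := hat z u hz hu ε hε0
  refine ⟨conj h₀ T, hh₀.conj T, ?_⟩
  rw [conj_apply]
  have h1 := (abs_le.mp (hh₀.near hκ0 hu (min_le_left _ _) hT)).2
  have h2 : κ * ε ≤ δ / 6 := by
    have : ε ≤ δ / (6 * κ) := min_le_right _ _
    rw [le_div_iff₀ (by positivity)] at this
    linarith
  nlinarith

omit hS hC hM hM0 hg in
lemma transport_max {z : E} (hz : ‖z‖ = 1) {δ : ℝ} (hδ : 0 < δ) :
    ∃ h : E →L[ℝ] E →L[ℝ] ℝ, Adm κ h ∧ 1 - δ ≤ h z z := by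
  have hκ0 : 0 < κ := by linarith
  obtain ⟨u, hu, hu2⟩ := near_max hκ hmin hh₀ (η := δ / 2) (by positivity)
  set ε : ℝ := min 1 (δ / 6) with hε
  have hε0 : 0 < ε := lt_min one_pos (by positivity)
  obtain ⟨T, hT⟩ := hat z u hz hu ε hε0
  refine ⟨conj h₀ T, hh₀.conj T, ?_⟩
  rw [conj_apply]
  have h1 := (abs_le.mp (hh₀.near hκ0 hu (min_le_left _ _) hT)).1
  have h2 : ε ≤ δ / 6 := min_le_right _ _
  linarith

omit hS hC hM hM0 in
/-- Lower bound of the Hessians. -/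
lemma hess_lower {p : E} (hp : ‖p‖ = 1) (z : E) : κ⁻¹ * ‖z‖ ^ 2 ≤ g p z z := by
  have hκ0 : 0 < κ := by linarith
  have := unit_le (a := fun v => κ⁻¹ * ‖v‖ ^ 2) (b := fun v => 1 * g p v v)
    (fun c v => hom_norm _ c v) (fun c v => hom_form (g p) 1 c v) (fun v hv => by
      simp only [hv, one_pow, mul_one, one_mul]
      refine le_of_forall_pos_le_add fun ε hε => ?_
      set t : ℝ := ε / (2 * (|M| + 1)) with ht
      have ht0 : 0 < t := by positivity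
      obtain ⟨h, hh, hz⟩ := transport_max hat hκ hmin hh₀ hp (δ := t ^ 2 * (ε / 2)) (by positivity)
      have h1 := contact_max (hg p hp) hp hh hz hv ht0
      have h2 := (hh.2 v).2
      rw [hv, one_pow] at h2
      have h3 : κ⁻¹ ≤ h v v := by
        rw [inv_le_iff_one_le_mul₀' hκ0]
        exact h2
      have h4 : t ^ 2 * (ε / 2) / t ^ 2 = ε / 2 := by field_simp
      have h5 : M * t ≤ ε / 2 := by
        have h6 : |M| * t ≤ ε / 2 := by
          rw [ht, mul_div_assoc', div_le_div_iff₀ (by positivity) (by norm_num)]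
          nlinarith [abs_nonneg M]
        exact (mul_le_mul_of_nonneg_right (le_abs_self M) ht0.le).trans h6
      rw [h4] at h1
      linarith) z
  simpa using this

omit hS hC hM in
/-- Common contact points. -/
lemma exists_common (F : Finset E) (H : Finset (E →L[ℝ] E →L[ℝ] ℝ)) (hH : ∀ h ∈ H, Adm κ h)
    {e : E} (he : ‖e‖ = 1) {η : ℝ} (hη : 0 < η) : ∃ u : E, ‖u‖ = 1 ∧
      (∀ h ∈ H, κ * h u u ≤ 1 + η) ∧
      (∀ z ∈ F, ‖z‖ = 1 → g u z z ≤ 1 + η) ∧ (∀ z ∈ F, ‖z‖ = 1 → g z u u ≤ 1 + η) := by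
  classical
  set t : ℝ := η / (4 * (M + 1)) with ht
  have ht0 : 0 < t := by positivity
  have hMt : M * t ≤ η / 4 := by
    rw [ht, mul_div_assoc', div_le_div_iff₀ (by positivity) (by norm_num)]
    nlinarith
  set δ : ℝ := min (η / 4) (t ^ 2 * (η / 4)) with hδ
  have hδ0 : 0 < δ := lt_min (by positivity) (by positivity)
  have hδ1 : δ ≤ η / 4 := min_le_left _ _
  have hδ2 : δ / t ^ 2 ≤ η / 4 := by
    rw [div_le_iff₀ (by positivity)]
    have : δ ≤ t ^ 2 * (η / 4) := min_le_right _ _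
    linarith
  have hex : ∀ z : E, ∃ h : E →L[ℝ] E →L[ℝ] ℝ, Adm κ h ∧ (‖z‖ = 1 → κ * h z z ≤ 1 + δ) := by
    intro z
    by_cases hz : ‖z‖ = 1
    · obtain ⟨h, hh, hh2⟩ := transport_min hat hκ hmin hh₀ hz hδ0
      exact ⟨h, hh, fun _ => hh2⟩
    · exact ⟨h₀, hh₀, fun h => absurd h hz⟩
  choose k hk1 hk2 using hex
  obtain ⟨u, hu, hu2⟩ := near_min hκ hmin he (H ∪ F.image k) (by
    intro h hh
    rcases Finset.mem_union.mp hh with h1 | h1
    · exact hH h h1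
    · obtain ⟨z, -, rfl⟩ := Finset.mem_image.mp h1
      exact hk1 z) hδ0
  refine ⟨u, hu, fun h hh => ?_, fun z hz hz1 => ?_, fun z hz hz1 => ?_⟩
  · have := hu2 h (Finset.mem_union_left _ hh)
    linarith
  · have h1 := hu2 (k z) (Finset.mem_union_right _ (Finset.mem_image_of_mem k hz))
    have h2 := contact_min (hg u hu) hu (hk1 z) h1 hz1 ht0
    have h3 := hk2 z hz1
    linarith
  · have h1 := hu2 (k z) (Finset.mem_union_right _ (Finset.mem_image_of_mem k hz))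
    have h2 := contact_min (hg z hz1) hz1 (hk1 z) (hk2 z hz1) hu ht0
    linarith

/-- The optimal constant is one. -/
lemma best_le_one {e : E} (he : ‖e‖ = 1) : κ ≤ 1 := by
  classical
  have hB := hS.pos
  have hκ0 : 0 < κ := by linarith
  -- the net of contact points
  let ι := Finset E × Finset {h : E →L[ℝ] E →L[ℝ] ℝ // Adm κ h} × ℕ
  have hex : ∀ i : ι, ∃ u : E, ‖u‖ = 1 ∧
      (∀ h ∈ i.2.1, κ * h.1 u u ≤ 1 + 1 / ((i.2.2 : ℝ) + 1)) ∧
      (∀ z ∈ i.1, ‖z‖ = 1 → g u z z ≤ 1 + 1 / ((i.2.2 : ℝ) + 1)) ∧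
      (∀ z ∈ i.1, ‖z‖ = 1 → g z u u ≤ 1 + 1 / ((i.2.2 : ℝ) + 1)) := by
    intro i
    obtain ⟨u, hu, h1, h2, h3⟩ := exists_common hM0 hg hat hκ hmin hh₀ i.1
      (i.2.1.image (fun h => h.1)) (by
        intro h hh
        obtain ⟨h', -, rfl⟩ := Finset.mem_image.mp hh
        exact h'.2) he (η := 1 / ((i.2.2 : ℝ) + 1)) (by positivity)
    exact ⟨u, hu, fun h hh => h1 h.1 (Finset.mem_image_of_mem (fun h => h.1) hh), h2, h3⟩
  choose u hu1 hu2 hu3 hu4 using hex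
  have hne : (atTop : Filter ι).NeBot := by
    haveI : Nonempty ι := ⟨(∅, ∅, 0)⟩
    infer_instance
  let 𝒰 : Ultrafilter ι := Ultrafilter.of atTop
  have h𝒰 : (𝒰 : Filter ι) ≤ atTop := Ultrafilter.of_le atTop
  obtain ⟨h₁, hlim⟩ := exists_limit 𝒰 (fun i => g (u i)) (M := 2 * B)
    (fun i x y => (hg (u i) (hu1 i)).bound x y)
  have hev : ∀ (z : E) (n : ℕ), ∀ᶠ i : ι in 𝒰, z ∈ i.1 ∧ n ≤ i.2.2 := by
    intro z n
    refine h𝒰 ?_
    refine (eventually_ge_atTop (({z}, ∅, n) : ι)).mono fun i hi => ⟨?_, ?_⟩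
    · exact hi.1 (Finset.mem_singleton_self z)
    · exact hi.2.2
  have hh₁ : Adm κ h₁ := by
    refine ⟨fun a b => ?_, fun z => ⟨?_, ?_⟩⟩
    · exact tendsto_nhds_unique (hlim a b)
        ((hlim b a).congr fun i => (hg (u i) (hu1 i)).symm b a)
    · have := unit_le (a := fun v => 1 * h₁ v v) (b := fun v => 1 * ‖v‖ ^ 2)
        (fun c v => hom_form h₁ 1 c v) (fun c v => hom_norm _ c v) (fun v hv => by
          simp only [hv, one_pow, mul_one, one_mul]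
          refine le_of_forall_pos_le_add fun ε hε => ?_
          obtain ⟨n, hn⟩ := exists_nat_one_div_lt hε
          refine le_of_tendsto (hlim v v) ((hev v n).mono fun i hi => ?_)
          have h1 := hu3 i v hi.1 hv
          have h2 : 1 / ((i.2.2 : ℝ) + 1) ≤ 1 / ((n : ℝ) + 1) := by
            have : (n : ℝ) ≤ i.2.2 := by exact_mod_cast hi.2
            gcongr
          linarith) z
      simpa using this
    · have h1 : κ⁻¹ * ‖z‖ ^ 2 ≤ h₁ z z :=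
        ge_of_tendsto (hlim z z) (Eventually.of_forall fun i =>
          hess_lower hg hat hκ hmin hh₀ (hu1 i) z)
      rw [inv_mul_le_iff₀ hκ0] at h1
      exact h1
  -- conclusion by duality
  set A : ℝ := (1 + 2 * B) * (C + 2) with hA
  have hA0 : 0 < A := by positivity
  have key : ∀ δ : ℝ, 0 < δ → κ ≤ 1 + δ ^ 2 + κ * (A * δ) := by
    intro δ hδ
    obtain ⟨n, hn⟩ := exists_nat_one_div_lt (show 0 < δ ^ 2 / 2 by positivity)
    set i : ι := (∅, {⟨h₁, hh₁⟩}, n) with hi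
    set x : E := u i with hx
    have hx1 : ‖x‖ = 1 := hu1 i
    have hx2 : κ * h₁ x x ≤ 1 + δ ^ 2 / 2 := by
      have := hu2 i ⟨h₁, hh₁⟩ (by simp [hi])
      simp only [hi] at this
      linarith
    have hx3 : h₁ x x ≤ κ⁻¹ + δ ^ 2 / 2 := by
      have h1 : h₁ x x ≤ κ⁻¹ * (1 + δ ^ 2 / 2) := by
        rw [← inv_mul_cancel_left₀ hκ0.ne' (h₁ x x)]
        gcongr
      have h2 : κ⁻¹ * (δ ^ 2 / 2) ≤ 1 * (δ ^ 2 / 2) := by
        have : κ⁻¹ ≤ 1 := inv_le_one_of_one_le₀ hκ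
        gcongr
      linarith
    have h1 : ∀ᶠ j : ι in 𝒰, g (u j) x x < h₁ x x + δ ^ 2 / 2 :=
      (hlim x x).eventually (gt_mem_nhds (by linarith [show 0 < δ ^ 2 by positivity]))
    obtain ⟨j, hj1, hj2, hj3⟩ := (h1.and (hev x n)).exists
    set w : E := u j with hw
    have hw1 : ‖w‖ = 1 := hu1 j
    have hwx : g w x x ≤ κ⁻¹ + δ ^ 2 := by linarith
    have hxw : g x w w ≤ 1 + δ ^ 2 := by
      have h3 := hu4 j x hj2 hx1
      have h4 : 1 / ((j.2.2 : ℝ) + 1) ≤ 1 / ((n : ℝ) + 1) := by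
        have : (n : ℝ) ≤ j.2.2 := by exact_mod_cast hj3
        gcongr
      rw [← hw] at h3
      linarith [show 0 < δ ^ 2 by positivity]
    have h5 := duality hS hC hM hM0 hw1 hx1 (hg w hw1) (hg x hx1) (inv_pos.mpr hκ0).le hδ
      (fun z => hess_lower hg hat hκ hmin hh₀ hw1 z) hwx
    rw [← hA] at h5
    have h6 : κ * 1 ≤ κ * (κ⁻¹ * g x w w + A * δ) := by gcongr
    have h7 : κ * (κ⁻¹ * g x w w + A * δ) = g x w w + κ * (A * δ) := by field_simp
    linarith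
  refine le_of_forall_pos_le_add fun ε hε => ?_
  set δ : ℝ := min 1 (ε / (1 + κ * A)) with hδ
  have hδ0 : 0 < δ := lt_min one_pos (by positivity)
  have hδ1 : δ ≤ 1 := min_le_left _ _
  have hδ2 : δ * (1 + κ * A) ≤ ε := by
    have : δ ≤ ε / (1 + κ * A) := min_le_right _ _
    rwa [le_div_iff₀ (by positivity)] at this
  have h1 := key δ hδ0
  nlinarith

end best
end

/-- The main theorem. -/
theorem parallelogram_of_bend {C : ℝ} (h : Bend E C) (x y : E) :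
    ‖x + y‖ ^ 2 + ‖x - y‖ ^ 2 = 2 * (‖x‖ ^ 2 + ‖y‖ ^ 2) := by
  -- trivial space
  rcases eq_or_ne x 0 with hx | hx
  · subst hx
    rw [zero_add, zero_sub, norm_neg, norm_zero]
    ring
  have hxn : 0 < ‖x‖ := norm_pos_iff.mpr hx
  set e : E := ‖x‖⁻¹ • x with he
  have he1 : ‖e‖ = 1 := by rw [he, norm_smul, norm_inv, norm_norm, inv_mul_cancel₀ hxn.ne']
  -- nonnegative constant
  set C₀ : ℝ := max C 0 with hC₀
  have hC₀0 : 0 ≤ C₀ := le_max_right _ _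
  have hb : Bend E C₀ := by
    intro a b ha hb ε hε
    obtain ⟨T, hT1, hT2⟩ := h a b ha hb ε hε
    refine ⟨T, hT1, hT2.trans ?_⟩
    have : C ≤ C₀ := le_max_left _ _
    gcongr
  have hS := smooth_of_bend hC₀0 hb
  have hM := move_of_bend hC₀0 hb
  set B : ℝ := Bc C₀ with hB
  set C₁ : ℝ := 6 * C₀ + 2 with hC₁
  have hC₁0 : 0 ≤ C₁ := by positivity
  have hB0 := hS.pos
  set D : ℝ := 14 * (B * (4 * C₁ + C₁ ^ 2 + 16)) with hD
  have hD0 : B ≤ D := by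
    rw [hD]
    have : 0 ≤ B * (4 * C₁ + C₁ ^ 2) := by positivity
    linarith
  have hex : ∀ x : E, ∃ G : E →L[ℝ] E →L[ℝ] ℝ, ‖x‖ = 1 → Hess B (60 * D) x G := by
    intro x
    by_cases hx : ‖x‖ = 1
    · obtain ⟨G, hG⟩ := exists_hess hS hD0 (fun x u v z hx => m3_le hS hC₁0 hM hx u v z) hx
      exact ⟨G, fun _ => hG⟩
    · exact ⟨0, fun h => absurd h hx⟩
  choose g hg using hex
  have hM0 : 0 ≤ 60 * D := by linarith
  obtain ⟨κ, hκ, ⟨h₀, hh₀⟩, hmin⟩ := exists_best he1 (exists_adm hS hC₁0 hM hM0 hg he1)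
  have hat : ∀ x y : E, ‖x‖ = 1 → ‖y‖ = 1 → ∀ ε : ℝ, 0 < ε →
      ∃ T : E ≃ₗᵢ[ℝ] E, ‖T x - y‖ ≤ ε := by
    intro x y hx hy ε hε
    obtain ⟨T, hT, -⟩ := hb x y hx hy ε hε
    exact ⟨T, hT⟩
  have hκ1 := best_le_one hS hC₁0 hM hM0 hg hat hκ hmin hh₀ he1
  have hκ2 : κ = 1 := le_antisymm hκ1 hκ
  have heq : ∀ z, ‖z‖ ^ 2 = h₀ z z := by
    intro z
    have h1 := hh₀.2 z
    rw [hκ2, one_mul] at h1
    exact le_antisymm h1.2 h1.1
  rw [heq, heq, heq, heq]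
  simp only [map_add, map_sub, add_apply, sub_apply]
  ring

end Pool.Agent.Helper53.BM.Lip
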