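import Pool.Agent.Helper53.BM.Lip.ClaimA

set_option autoImplicit false

open Filter Topology

namespace Pool.Agent.Helper53.BM.Lip

variable {E : Type*} [NormedAddCommGroup E] [NormedSpace ℝ E]

/-- The second order data of the squared norm at `x`. -/
structure Hess (B M : ℝ) (x : E) (G : E →L[ℝ] E →L[ℝ] ℝ) : Prop where
  symm : ∀ u v, G u v = G v u
  bound : ∀ u v, |G u v| ≤ 2 * B * ‖u‖ * ‖v‖
  taylor : ∀ v, |‖x + v‖ ^ 2 - ‖x‖ ^ 2 - 2 * J x v - G v v| ≤ M * ‖v‖ ^ 3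
  diff : ∀ v, ‖J (x + v) - J x - G v‖ ≤ M * ‖v‖ ^ 2
  nonneg : ∀ v, 0 ≤ G v v

variable {B : ℝ} (hS : Smooth E B)
include hS

lemma m2_le (x u v : E) : |m2 N x u v| ≤ 3 * B * ‖u‖ * ‖v‖ := by
  have hB := hS.pos
  have aux : ∀ u v : E, |m2 N x u v| ≤ 2 * B * ‖u‖ * ‖v‖ + B * ‖v‖ ^ 2 := by
    intro u v
    have h1 := hS.up (x + u) v
    have h2 := lo (x + u) v
    have h3 := hS.up x v
    have h4 := lo x v
    have h5 := hS.J_sub_apply (x + u) x v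
    rw [add_sub_cancel_left, abs_le] at h5
    simp only [m2, N_def]
    rw [abs_le]
    constructor <;> nlinarith [h5.1, h5.2]
  have hu := norm_nonneg u
  have hv := norm_nonneg v
  rcases le_total ‖v‖ ‖u‖ with h | h
  · refine (aux u v).trans ?_
    have : B * ‖v‖ ^ 2 ≤ B * (‖u‖ * ‖v‖) := by
      have : ‖v‖ ^ 2 ≤ ‖u‖ * ‖v‖ := by nlinarith
      gcongr
    nlinarith
  · rw [m2_comm]
    refine (aux v u).trans ?_
    have : B * ‖u‖ ^ 2 ≤ B * (‖u‖ * ‖v‖) := by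
      have : ‖u‖ ^ 2 ≤ ‖u‖ * ‖v‖ := by nlinarith
      gcongr
    nlinarith

omit hS in
lemma norm_half_pow (k : ℕ) (u : E) : ‖((1 / 2 : ℝ) ^ k) • u‖ = (1 / 2) ^ k * ‖u‖ := by
  rw [norm_smul, Real.norm_eq_abs, abs_of_pos (by positivity)]

omit hS in
lemma m2_double {D : ℝ} (hD : 0 ≤ D) {x : E}
    (h3 : ∀ u v z : E, |m3 N x u v z| ≤ D * (‖u‖ + ‖v‖ + ‖z‖) ^ 3) (u v : E) :
    |m2 N x ((2 : ℝ) • u) ((2 : ℝ) • v) - 4 * m2 N x u v| ≤ 24 * D * (‖u‖ + ‖v‖) ^ 3 := by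
  have e : m2 N x ((2 : ℝ) • u) ((2 : ℝ) • v) - 4 * m2 N x u v =
      2 * m3 N x v v u + m3 N x u u ((2 : ℝ) • v) := by
    rw [two_smul ℝ u, m2_add, m2_comm N x u ((2 : ℝ) • v), two_smul ℝ v, m2_add,
      m2_comm N x v u]
    ring
  rw [e]
  have a1 := h3 v v u
  have a2 := h3 u u ((2 : ℝ) • v)
  have n2 : ‖(2 : ℝ) • v‖ = 2 * ‖v‖ := by
    rw [norm_smul, Real.norm_eq_abs, abs_of_pos (by norm_num : (0 : ℝ) < 2)]
  rw [n2] at a2
  have hu := norm_nonneg u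
  have hv := norm_nonneg v
  have b1 : D * (‖v‖ + ‖v‖ + ‖u‖) ^ 3 ≤ D * (2 * (‖u‖ + ‖v‖)) ^ 3 := by
    gcongr
    linarith
  have b2 : D * (‖u‖ + ‖u‖ + 2 * ‖v‖) ^ 3 = D * (2 * (‖u‖ + ‖v‖)) ^ 3 := by ring
  rw [abs_le] at a1 a2 ⊢
  constructor <;> nlinarith [a1.1, a1.2, a2.1, a2.2]

/-- The bilinear form. -/
lemma exists_form {D : ℝ} (hD : 0 ≤ D) {x : E}
    (h3 : ∀ u v z : E, |m3 N x u v z| ≤ D * (‖u‖ + ‖v‖ + ‖z‖) ^ 3) :
    ∃ G : E →L[ℝ] E →L[ℝ] ℝ, (∀ u v, G u v = G v u) ∧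
      (∀ u v, |G u v| ≤ 2 * B * ‖u‖ * ‖v‖) ∧
      ∀ u v, |m2 N x u v - 2 * G u v| ≤ 6 * D * (‖u‖ + ‖v‖) ^ 3 := by
  have hB := hS.pos
  set f : E → E → ℕ → ℝ := fun u v k =>
    4 ^ k * m2 N x (((1 / 2 : ℝ) ^ k) • u) (((1 / 2 : ℝ) ^ k) • v) with hf
  have hstep : ∀ u v (k : ℕ), dist (f u v k) (f u v (k + 1)) ≤
      (6 * D * (‖u‖ + ‖v‖) ^ 3) / 2 / 2 ^ k := by
    intro u v k
    have e1 : ((1 / 2 : ℝ) ^ k) • u = (2 : ℝ) • (((1 / 2 : ℝ) ^ (k + 1)) • u) := by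
      rw [smul_smul, pow_succ]
      congr 1
      ring
    have e2 : ((1 / 2 : ℝ) ^ k) • v = (2 : ℝ) • (((1 / 2 : ℝ) ^ (k + 1)) • v) := by
      rw [smul_smul, pow_succ]
      congr 1
      ring
    have h1 := m2_double hD h3 (((1 / 2 : ℝ) ^ (k + 1)) • u) (((1 / 2 : ℝ) ^ (k + 1)) • v)
    rw [← e1, ← e2, norm_half_pow, norm_half_pow] at h1
    rw [Real.dist_eq]
    simp only [hf]
    have e3 : (4 : ℝ) ^ k * m2 N x (((1 / 2 : ℝ) ^ k) • u) (((1 / 2 : ℝ) ^ k) • v) -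
        4 ^ (k + 1) * m2 N x (((1 / 2 : ℝ) ^ (k + 1)) • u) (((1 / 2 : ℝ) ^ (k + 1)) • v) =
        4 ^ k * (m2 N x (((1 / 2 : ℝ) ^ k) • u) (((1 / 2 : ℝ) ^ k) • v) -
          4 * m2 N x (((1 / 2 : ℝ) ^ (k + 1)) • u) (((1 / 2 : ℝ) ^ (k + 1)) • v)) := by
      rw [pow_succ]
      ring
    rw [e3, abs_mul, abs_of_pos (by positivity : (0 : ℝ) < 4 ^ k)]
    calc (4 : ℝ) ^ k * |m2 N x (((1 / 2 : ℝ) ^ k) • u) (((1 / 2 : ℝ) ^ k) • v) -
          4 * m2 N x (((1 / 2 : ℝ) ^ (k + 1)) • u) (((1 / 2 : ℝ) ^ (k + 1)) • v)|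
        ≤ 4 ^ k * (24 * D * ((1 / 2) ^ (k + 1) * ‖u‖ + (1 / 2) ^ (k + 1) * ‖v‖) ^ 3) := by
          gcongr
      _ = (6 * D * (‖u‖ + ‖v‖) ^ 3) / 2 / 2 ^ k := by
          have h4 : (4 : ℝ) ^ k = 2 ^ k * 2 ^ k := by
            rw [← mul_pow]
            norm_num
          rw [h4, pow_succ, one_div, inv_pow]
          field_simp
          ring
  have hex : ∀ u v, ∃ L : ℝ, Tendsto (f u v) atTop (𝓝 L) ∧
      |m2 N x u v - L| ≤ 6 * D * (‖u‖ + ‖v‖) ^ 3 := by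
    intro u v
    obtain ⟨L, hL⟩ := cauchySeq_tendsto_of_complete (cauchySeq_of_le_geometric_two (hstep u v))
    refine ⟨L, hL, ?_⟩
    have h1 := dist_le_of_le_geometric_two_of_tendsto₀ (hstep u v) hL
    rw [Real.dist_eq] at h1
    simpa [hf] using h1
  choose L hL1 hL2 using hex
  have hLsymm : ∀ u v, L u v = L v u := by
    intro u v
    refine tendsto_nhds_unique (hL1 u v) ((hL1 v u).congr fun k => ?_)
    simp only [hf]
    rw [m2_comm]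
  have hLb : ∀ u v, |L u v| ≤ 3 * B * ‖u‖ * ‖v‖ := by
    intro u v
    refine le_of_tendsto (hL1 u v).abs (Eventually.of_forall fun k => ?_)
    simp only [hf]
    have h1 := m2_le hS x (((1 / 2 : ℝ) ^ k) • u) (((1 / 2 : ℝ) ^ k) • v)
    rw [norm_half_pow, norm_half_pow] at h1
    rw [abs_mul, abs_of_pos (by positivity : (0 : ℝ) < 4 ^ k)]
    calc (4 : ℝ) ^ k * |m2 N x (((1 / 2 : ℝ) ^ k) • u) (((1 / 2 : ℝ) ^ k) • v)|
        ≤ 4 ^ k * (3 * B * ((1 / 2) ^ k * ‖u‖) * ((1 / 2) ^ k * ‖v‖)) := by gcongr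
      _ = 3 * B * ‖u‖ * ‖v‖ := by
          have h4 : (4 : ℝ) ^ k = 2 ^ k * 2 ^ k := by
            rw [← mul_pow]
            norm_num
          rw [h4, one_div, inv_pow]
          field_simp
  have hLadd : ∀ u u' v, L (u + u') v = L u v + L u' v := by
    intro u u' v
    have h1 : Tendsto (fun k => f u v k + f u' v k +
        4 ^ k * m3 N x (((1 / 2 : ℝ) ^ k) • u) (((1 / 2 : ℝ) ^ k) • u') (((1 / 2 : ℝ) ^ k) • v))
        atTop (𝓝 (L u v + L u' v + 0)) := by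
      refine ((hL1 u v).add (hL1 u' v)).add ?_
      have h2 : Tendsto (fun k : ℕ => D * (‖u‖ + ‖u'‖ + ‖v‖) ^ 3 * (1 / 2 : ℝ) ^ k) atTop
          (𝓝 (D * (‖u‖ + ‖u'‖ + ‖v‖) ^ 3 * 0)) :=
        (tendsto_pow_atTop_nhds_zero_of_lt_one (by norm_num) (by norm_num)).const_mul _
      rw [mul_zero] at h2
      refine squeeze_zero_norm (fun k => ?_) h2
      have h4 := h3 (((1 / 2 : ℝ) ^ k) • u) (((1 / 2 : ℝ) ^ k) • u') (((1 / 2 : ℝ) ^ k) • v)
      rw [norm_half_pow, norm_half_pow, norm_half_pow] at h4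
      rw [Real.norm_eq_abs, abs_mul, abs_of_pos (by positivity : (0 : ℝ) < 4 ^ k)]
      calc (4 : ℝ) ^ k * |m3 N x (((1 / 2 : ℝ) ^ k) • u) (((1 / 2 : ℝ) ^ k) • u')
            (((1 / 2 : ℝ) ^ k) • v)|
          ≤ 4 ^ k * (D * ((1 / 2) ^ k * ‖u‖ + (1 / 2) ^ k * ‖u'‖ + (1 / 2) ^ k * ‖v‖) ^ 3) := by
            gcongr
        _ = D * (‖u‖ + ‖u'‖ + ‖v‖) ^ 3 * (1 / 2 : ℝ) ^ k := by
            have h4 : (4 : ℝ) ^ k = 2 ^ k * 2 ^ k := by
              rw [← mul_pow]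
              norm_num
            rw [h4, one_div, inv_pow]
            field_simp
    rw [add_zero] at h1
    refine tendsto_nhds_unique (hL1 (u + u') v) (h1.congr fun k => ?_)
    simp only [hf]
    rw [smul_add, m2_add]
    ring
  have hLadd' : ∀ u v v', L u (v + v') = L u v + L u v' := by
    intro u v v'
    rw [hLsymm, hLadd, hLsymm v u, hLsymm v' u]
  have hLsmul : ∀ (c : ℝ) u v, L (c • u) v = c • L u v := by
    intro c u v
    set g : E →+ ℝ := AddMonoidHom.mk' (fun u => L u v) (fun u u' => hLadd u u' v) with hg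
    have hcont : Continuous g := by
      refine AddMonoidHomClass.continuous_of_bound g (3 * B * ‖v‖) fun u => ?_
      have := hLb u v
      change ‖L u v‖ ≤ _
      rw [Real.norm_eq_abs]
      linarith
    exact map_real_smul g hcont c u
  have hLsmul' : ∀ (c : ℝ) u v, L u (c • v) = c • L u v := by
    intro c u v
    rw [hLsymm, hLsmul, hLsymm v u]
  set G₀ : E →L[ℝ] E →L[ℝ] ℝ := LinearMap.mkContinuous₂
    (LinearMap.mk₂ ℝ L hLadd hLsmul hLadd' hLsmul') (3 * B) (fun u v => by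
      rw [LinearMap.mk₂_apply, Real.norm_eq_abs]
      exact hLb u v) with hG₀
  have hG₀app : ∀ u v, G₀ u v = L u v := fun u v => by simp [hG₀]
  refine ⟨(1 / 2 : ℝ) • G₀, fun u v => ?_, fun u v => ?_, fun u v => ?_⟩
  · simp only [smul_apply, smul_eq_mul, hG₀app]
    rw [hLsymm]
  · simp only [smul_apply, smul_eq_mul, hG₀app]
    rw [abs_mul, abs_of_pos (by norm_num : (0 : ℝ) < 1 / 2)]
    have h1 := hLb u v
    have h2 : 0 ≤ B * ‖u‖ * ‖v‖ := by positivity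
    nlinarith
  · simp only [smul_apply, smul_eq_mul, hG₀app]
    have e : 2 * (1 / 2 * L u v) = L u v := by ring
    rw [e]
    exact hL2 u v

/-- Second order expansion. -/
lemma taylor_of_form {D : ℝ} (hD : 0 ≤ D) {x : E} {G : E →L[ℝ] E →L[ℝ] ℝ}
    (hG : ∀ u v, |G u v| ≤ 2 * B * ‖u‖ * ‖v‖)
    (hG2 : ∀ u v, |m2 N x u v - 2 * G u v| ≤ 6 * D * (‖u‖ + ‖v‖) ^ 3) (v : E) :
    |‖x + v‖ ^ 2 - ‖x‖ ^ 2 - 2 * J x v - G v v| ≤ 12 * D * ‖v‖ ^ 3 := by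
  have hB := hS.pos
  set e : E → ℝ := fun v => ‖x + v‖ ^ 2 - ‖x‖ ^ 2 - 2 * J x v - G v v with he
  have hev : ∀ v, |e v| ≤ 3 * B * ‖v‖ ^ 2 := by
    intro v
    have h1 := hS.up x v
    have h2 := lo x v
    have h3 := abs_le.mp (hG v v)
    have h4 : 0 ≤ B * ‖v‖ ^ 2 := by positivity
    simp only [he]
    rw [abs_le]
    constructor <;> nlinarith [h3.1, h3.2]
  have hdouble : ∀ v, |e ((2 : ℝ) • v) - 2 * e v| ≤ 48 * D * ‖v‖ ^ 3 := by
    intro v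
    have h1 := hG2 v v
    have e1 : e ((2 : ℝ) • v) - 2 * e v = m2 N x v v - 2 * G v v := by
      simp only [he, m2, N_def, map_smul, smul_apply, smul_eq_mul]
      rw [add_assoc x v v, ← two_smul ℝ v]
      ring
    rw [e1]
    refine h1.trans (le_of_eq ?_)
    ring
  set f : ℕ → ℝ := fun k => 2 ^ k * e (((1 / 2 : ℝ) ^ k) • v) with hf
  have hstep : ∀ k : ℕ, dist (f k) (f (k + 1)) ≤ (12 * D * ‖v‖ ^ 3) / 2 / 2 ^ k := by
    intro k
    have e1 : ((1 / 2 : ℝ) ^ k) • v = (2 : ℝ) • (((1 / 2 : ℝ) ^ (k + 1)) • v) := by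
      rw [smul_smul, pow_succ]
      congr 1
      ring
    have h1 := hdouble (((1 / 2 : ℝ) ^ (k + 1)) • v)
    rw [← e1, norm_half_pow] at h1
    rw [Real.dist_eq]
    simp only [hf]
    have e3 : (2 : ℝ) ^ k * e (((1 / 2 : ℝ) ^ k) • v) -
        2 ^ (k + 1) * e (((1 / 2 : ℝ) ^ (k + 1)) • v) =
        2 ^ k * (e (((1 / 2 : ℝ) ^ k) • v) - 2 * e (((1 / 2 : ℝ) ^ (k + 1)) • v)) := by
      rw [pow_succ]
      ring
    rw [e3, abs_mul, abs_of_pos (by positivity : (0 : ℝ) < 2 ^ k)]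
    calc (2 : ℝ) ^ k * |e (((1 / 2 : ℝ) ^ k) • v) - 2 * e (((1 / 2 : ℝ) ^ (k + 1)) • v)|
        ≤ 2 ^ k * (48 * D * ((1 / 2) ^ (k + 1) * ‖v‖) ^ 3) := by gcongr
      _ = (12 * D * ‖v‖ ^ 3) / 2 / 2 ^ k * (1 / 2) ^ k := by
          have h5 : (1 / 2 : ℝ) ^ k = (2 ^ k)⁻¹ := by rw [one_div, inv_pow]
          have h6 : (1 / 2 : ℝ) ^ (k + 1) = (2 ^ k)⁻¹ * (1 / 2) := by rw [pow_succ (1 / 2 : ℝ), h5]
          rw [h6, h5]
          field_simp
          ring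
      _ ≤ (12 * D * ‖v‖ ^ 3) / 2 / 2 ^ k * 1 := by
          have : (1 / 2 : ℝ) ^ k ≤ 1 := pow_le_one₀ (by norm_num) (by norm_num)
          gcongr
      _ = _ := mul_one _
  have hlim : Tendsto f atTop (𝓝 0) := by
    have h2 : Tendsto (fun k : ℕ => 3 * B * ‖v‖ ^ 2 * (1 / 2 : ℝ) ^ k) atTop
        (𝓝 (3 * B * ‖v‖ ^ 2 * 0)) :=
      (tendsto_pow_atTop_nhds_zero_of_lt_one (by norm_num) (by norm_num)).const_mul _
    rw [mul_zero] at h2
    refine squeeze_zero_norm (fun k => ?_) h2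
    have h1 := hev (((1 / 2 : ℝ) ^ k) • v)
    rw [norm_half_pow] at h1
    simp only [hf]
    rw [Real.norm_eq_abs, abs_mul, abs_of_pos (by positivity : (0 : ℝ) < 2 ^ k)]
    calc (2 : ℝ) ^ k * |e (((1 / 2 : ℝ) ^ k) • v)| ≤ 2 ^ k * (3 * B * ((1 / 2) ^ k * ‖v‖) ^ 2) := by
          gcongr
      _ = 3 * B * ‖v‖ ^ 2 * (1 / 2 : ℝ) ^ k := by
          rw [one_div, inv_pow]
          field_simp
  have h1 := dist_le_of_le_geometric_two_of_tendsto₀ hstep hlim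
  rw [Real.dist_eq] at h1
  simpa [hf, he] using h1

/-- The odd part of the squared norm. -/
lemma odd_near {D : ℝ} (hD : 0 ≤ D)
    (h3 : ∀ x u v z : E, ‖x‖ = 1 → |m3 N x u v z| ≤ D * (‖u‖ + ‖v‖ + ‖z‖) ^ 3)
    {y : E} (hy : 1 / 2 ≤ ‖y‖) (z : E) :
    |‖y + z‖ ^ 2 - ‖y - z‖ ^ 2 - 4 * J y z| ≤ 48 * D * ‖z‖ ^ 3 := by
  have main : ∀ x : E, ‖x‖ = 1 → ∀ z : E,
      |‖x + z‖ ^ 2 - ‖x - z‖ ^ 2 - 4 * J x z| ≤ 24 * D * ‖z‖ ^ 3 := by
    intro x hx z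
    obtain ⟨G, -, hG1, hG2⟩ := exists_form hS hD (fun u v z => h3 x u v z hx)
    have a1 := taylor_of_form hS hD hG1 hG2 z
    have a2 := taylor_of_form hS hD hG1 hG2 (-z)
    rw [← sub_eq_add_neg, norm_neg] at a2
    simp only [map_neg, neg_apply, neg_neg] at a2
    rw [abs_le] at a1 a2 ⊢
    constructor <;> linarith [a1.1, a1.2, a2.1, a2.2]
  set c : ℝ := ‖y‖ with hc
  have hc0 : 0 < c := by linarith
  have e0 : ∀ w : E, w = c • (c⁻¹ • w) := fun w => by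
    rw [smul_smul, mul_inv_cancel₀ hc0.ne', one_smul]
  have hu : ‖c⁻¹ • y‖ = 1 := by
    rw [norm_smul, norm_inv, hc, norm_norm, inv_mul_cancel₀ hc0.ne']
  have h1 := main (c⁻¹ • y) hu (c⁻¹ • z)
  have e1 : ‖y + z‖ ^ 2 = c ^ 2 * ‖c⁻¹ • y + c⁻¹ • z‖ ^ 2 := by
    conv_lhs => rw [e0 y, e0 z, ← smul_add, norm_smul, Real.norm_eq_abs, abs_of_pos hc0]
    ring
  have e2 : ‖y - z‖ ^ 2 = c ^ 2 * ‖c⁻¹ • y - c⁻¹ • z‖ ^ 2 := by
    conv_lhs => rw [e0 y, e0 z, ← smul_sub, norm_smul, Real.norm_eq_abs, abs_of_pos hc0]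
    ring
  have e3 : J y z = c ^ 2 * J (c⁻¹ • y) (c⁻¹ • z) := by
    conv_lhs => rw [e0 y, hS.J_smul, e0 z]
    simp only [smul_apply, map_smul, smul_eq_mul]
    ring
  have e4 : ‖y + z‖ ^ 2 - ‖y - z‖ ^ 2 - 4 * J y z = c ^ 2 *
      (‖c⁻¹ • y + c⁻¹ • z‖ ^ 2 - ‖c⁻¹ • y - c⁻¹ • z‖ ^ 2 - 4 * J (c⁻¹ • y) (c⁻¹ • z)) := by
    rw [e1, e2, e3]; ring
  rw [e4, abs_mul, abs_of_pos (by positivity : 0 < c ^ 2)]
  calc c ^ 2 * |‖c⁻¹ • y + c⁻¹ • z‖ ^ 2 - ‖c⁻¹ • y - c⁻¹ • z‖ ^ 2 - 4 * J (c⁻¹ • y) (c⁻¹ • z)|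
      ≤ c ^ 2 * (24 * D * ‖c⁻¹ • z‖ ^ 3) := by gcongr
    _ = c⁻¹ * (24 * D * ‖z‖ ^ 3) := by
        rw [norm_smul, norm_inv, Real.norm_eq_abs, abs_of_pos hc0]
        field_simp
    _ ≤ 2 * (24 * D * ‖z‖ ^ 3) := by
        have : c⁻¹ ≤ 2 := by
          rw [inv_le_comm₀ hc0 (by norm_num)]
          linarith
        gcongr
    _ = _ := by ring

/-- Existence of second order data. -/
theorem exists_hess {D : ℝ} (hDB : B ≤ D)
    (h3 : ∀ x u v z : E, ‖x‖ = 1 → |m3 N x u v z| ≤ D * (‖u‖ + ‖v‖ + ‖z‖) ^ 3)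
    {x : E} (hx : ‖x‖ = 1) : ∃ G : E →L[ℝ] E →L[ℝ] ℝ, Hess B (60 * D) x G := by
  have hB := hS.pos
  have hD : 0 ≤ D := hB.le.trans hDB
  obtain ⟨G, hG0, hG1, hG2⟩ := exists_form hS hD (fun u v z => h3 x u v z hx)
  have hT := taylor_of_form hS hD hG1 hG2
  refine ⟨G, hG0, hG1, fun v => (hT v).trans ?_, fun v => ?_, fun v => ?_⟩
  · have : 0 ≤ D * ‖v‖ ^ 3 := by positivity
    linarith
  · rcases eq_or_ne v 0 with hv | hv
    · subst hv
      simp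
    have hvn : 0 < ‖v‖ := norm_pos_iff.mpr hv
    rcases le_or_gt ‖v‖ (1 / 2) with hv2 | hv2
    · set t : ℝ := ‖v‖ with ht
      have key : ∀ z : E, ‖z‖ = t → |(J (x + v) - J x - G v) z| ≤ 60 * D * t ^ 3 := by
        intro z hz
        have hy : 1 / 2 ≤ ‖x + v‖ := by
          have := norm_sub_le_norm_add x v
          rw [hx, ← ht] at this
          linarith
        have a1 := odd_near hS hD h3 hy z
        have a2 := hT (v + z)
        have a3 := hT (v - z)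
        have n2 : ‖v + z‖ ≤ 2 * t := (norm_add_le _ _).trans (by rw [hz]; linarith)
        have n3 : ‖v - z‖ ≤ 2 * t := (norm_sub_le _ _).trans (by rw [hz]; linarith)
        have b2 : 12 * D * ‖v + z‖ ^ 3 ≤ 12 * D * (2 * t) ^ 3 := by gcongr
        have b3 : 12 * D * ‖v - z‖ ^ 3 ≤ 12 * D * (2 * t) ^ 3 := by gcongr
        rw [hz] at a1
        rw [← add_assoc] at a2
        rw [← add_sub_assoc] at a3
        simp only [map_add, map_sub, add_apply, sub_apply] at a2 a3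
        rw [hG0 z v] at a2 a3
        simp only [sub_apply]
        have c2 := a2.trans b2
        have c3 := a3.trans b3
        rw [abs_le] at a1 c2 c3 ⊢
        constructor <;> nlinarith [a1.1, a1.2, c2.1, c2.2, c3.1, c3.2]
      refine ContinuousLinearMap.opNorm_le_bound _ (by positivity) fun z => ?_
      rcases eq_or_ne z 0 with hz | hz
      · simp [hz]
      have hzn : 0 < ‖z‖ := norm_pos_iff.mpr hz
      have h1 := key ((t / ‖z‖) • z) (by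
        rw [norm_smul, Real.norm_eq_abs, abs_of_pos (by positivity), div_mul_cancel₀ _ hzn.ne'])
      rw [map_smul, smul_eq_mul, abs_mul, abs_of_pos (by positivity : 0 < t / ‖z‖)] at h1
      rw [Real.norm_eq_abs]
      have h2 : t / ‖z‖ * |(J (x + v) - J x - G v) z| ≤ t / ‖z‖ * (60 * D * t ^ 2 * ‖z‖) := by
        refine h1.trans (le_of_eq ?_)
        field_simp
      exact le_of_mul_le_mul_left h2 (by positivity)
    · have h1 := hS.J_sub (x + v) x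
      rw [add_sub_cancel_left] at h1
      have h2 : ‖G v‖ ≤ 2 * B * ‖v‖ :=
        ContinuousLinearMap.opNorm_le_bound _ (by positivity) fun z => by
          rw [Real.norm_eq_abs]
          exact hG1 v z
      have h3 := norm_sub_le (J (x + v) - J x) (G v)
      have h4 : B * ‖v‖ ≤ D * ‖v‖ := by gcongr
      have h5 : D * ‖v‖ ≤ D * ‖v‖ * (2 * ‖v‖) := by
        have : 0 ≤ D * ‖v‖ := by positivity
        nlinarith
      nlinarith
  · -- nonnegativity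
    refine le_of_forall_pos_le_add fun ε hε => ?_
    set s : ℝ := ε / (12 * D * ‖v‖ ^ 3 + 1) with hs
    have hs0 : 0 < s := by positivity
    have h1 := hT (s • v)
    have h2 := lo x (s • v)
    rw [norm_smul, Real.norm_eq_abs, abs_of_pos hs0] at h1
    simp only [map_smul, smul_apply, smul_eq_mul] at h1 h2
    have h4 := (abs_le.mp h1).2
    have h5 : s ^ 2 * (-(12 * D * ‖v‖ ^ 3) * s) ≤ s ^ 2 * G v v := by nlinarith
    have h6 := le_of_mul_le_mul_left h5 (by positivity)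
    have h7 : (12 * D * ‖v‖ ^ 3) * s ≤ ε := by
      rw [hs, mul_div_assoc', div_le_iff₀ (by positivity)]
      nlinarith
    linarith

end Pool.Agent.Helper53.BM.Lip
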