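import Pool.Agent.Helper53.BM.Lip.Third

set_option autoImplicit false

open Filter Topology

namespace Pool.Agent.Helper53.BM.Lip

variable {E : Type*} [NormedAddCommGroup E] [NormedSpace ℝ E]

/-- Smoothness of power type two. -/
structure Smooth (E : Type*) [NormedAddCommGroup E] [NormedSpace ℝ E] (B : ℝ) : Prop where
  one_le : 1 ≤ B
  upper : ∀ (x v : E) (f : StrongDual ℝ E), Dual x f →
    ‖x + v‖ ^ 2 ≤ ‖x‖ ^ 2 + 2 * f v + B * ‖v‖ ^ 2

/-- Isometries moving a unit vector `x` to a given direction and almost fixing the increment. -/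
def Move (E : Type*) [NormedAddCommGroup E] [NormedSpace ℝ E] (C : ℝ) : Prop :=
  ∀ x v : E, ‖x‖ = 1 → ‖v‖ ≤ 1 / 2 → ∀ ε : ℝ, 0 < ε → ∃ T : E ≃ₗᵢ[ℝ] E,
    ‖‖x + v‖ • T x - (x + v)‖ ≤ ε ∧ ‖T v - v‖ ≤ C * ‖v‖ ^ 2 + ε

lemma smooth_of_bend {C : ℝ} (hC : 0 ≤ C) (h : Bend E C) : Smooth E (Bc C) :=
  ⟨Bc_pos hC, fun x v _ hf => sq_le hC h x v hf⟩

lemma move_of_bend {C : ℝ} (hC : 0 ≤ C) (h : Bend E C) : Move E (6 * C + 2) :=
  fun _ _ hx hv _ hε => move hC h hx hv hε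

variable {B : ℝ} (hS : Smooth E B)
include hS

lemma Smooth.pos : 0 < B := lt_of_lt_of_le one_pos hS.one_le

lemma Smooth.dual_sub {x y : E} {f g : StrongDual ℝ E} (hf : Dual x f) (hg : Dual y g) :
    ‖f - g‖ ≤ B * ‖x - y‖ := dual_sub_le hS.pos.le hS.upper hf hg

lemma Smooth.unique {x : E} {f g : StrongDual ℝ E} (hf : Dual x f) (hg : Dual x g) : f = g := by
  have h := hS.dual_sub hf hg
  rw [sub_self, norm_zero, mul_zero, norm_le_zero_iff, sub_eq_zero] at h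
  exact h

lemma Smooth.J_sub (x y : E) : ‖J x - J y‖ ≤ B * ‖x - y‖ := hS.dual_sub (dual_J x) (dual_J y)

lemma Smooth.J_map (T : E ≃ₗᵢ[ℝ] E) (x : E) : J (T x) = push T (J x) :=
  hS.unique (dual_J _) ((dual_J x).push T)

lemma Smooth.J_smul (c : ℝ) (x : E) : J (c • x) = c • J x :=
  hS.unique (dual_J _) ((dual_J x).smul c)

lemma Smooth.up (x v : E) : ‖x + v‖ ^ 2 ≤ ‖x‖ ^ 2 + 2 * J x v + B * ‖v‖ ^ 2 :=
  hS.upper x v _ (dual_J x)

omit hS in
lemma lo (x v : E) : ‖x‖ ^ 2 + 2 * J x v ≤ ‖x + v‖ ^ 2 := le_sq x v (dual_J x)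

lemma Smooth.J_sub_apply (x y z : E) : |J x z - J y z| ≤ B * ‖x - y‖ * ‖z‖ := by
  have h1 := (J x - J y).le_opNorm z
  rw [sub_apply, Real.norm_eq_abs] at h1
  exact h1.trans (by gcongr; exact hS.J_sub x y)

omit hS in
/-- The squared norm. -/
noncomputable def N (x : E) : ℝ := ‖x‖ ^ 2

omit hS in
lemma N_def (x : E) : N x = ‖x‖ ^ 2 := rfl

omit hS in
lemma d2_nonneg (a h : E) : 0 ≤ d2 N a h := by
  have h1 := lo (a + h) h
  have h2 := lo (a + h) (-h)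
  rw [map_neg] at h2
  have e1 : a + h + h = a + (2 : ℝ) • h := by module
  have e2 : a + h + -h = a := by abel
  rw [e1] at h1
  rw [e2] at h2
  simp only [d2, N_def]
  linarith

lemma Smooth.d2_le (a h : E) : d2 N a h ≤ 2 * B * ‖h‖ ^ 2 := by
  have h1 := hS.up (a + h) h
  have h2 := hS.up (a + h) (-h)
  rw [map_neg, norm_neg] at h2
  have e1 : a + h + h = a + (2 : ℝ) • h := by module
  have e2 : a + h + -h = a := by abel
  rw [e1] at h1
  rw [e2] at h2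
  simp only [d2, N_def]
  linarith

lemma Smooth.d2_sub_le (a h k : E) :
    |d2 N a (h + k) - d2 N a h| ≤ 4 * B * ‖h‖ * ‖k‖ + 4 * B * ‖k‖ ^ 2 := by
  have h1 := hS.up (a + (2 : ℝ) • h) ((2 : ℝ) • k)
  have h2 := lo (a + (2 : ℝ) • h) ((2 : ℝ) • k)
  have h3 := hS.up (a + h) k
  have h4 := lo (a + h) k
  have h5 := hS.J_sub_apply (a + (2 : ℝ) • h) (a + h) k
  have e1 : a + (2 : ℝ) • h - (a + h) = h := by module
  rw [e1, abs_le] at h5
  have e2 : a + (2 : ℝ) • h + (2 : ℝ) • k = a + (2 : ℝ) • (h + k) := by module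
  have e3 : a + h + k = a + (h + k) := by abel
  have e4 : ‖(2 : ℝ) • k‖ = 2 * ‖k‖ := by
    rw [norm_smul, Real.norm_eq_abs, abs_of_pos (by norm_num : (0 : ℝ) < 2)]
  rw [e2, e4, map_smul, smul_eq_mul] at h1
  rw [e2, map_smul, smul_eq_mul] at h2
  rw [e3] at h3 h4
  simp only [d2, N_def]
  have hB := hS.pos
  have hk : 0 ≤ B * ‖k‖ ^ 2 := by positivity
  rw [abs_le]
  constructor <;> nlinarith [h5.1, h5.2]

omit hS in
lemma d2_map (T : E ≃ₗᵢ[ℝ] E) (a h : E) : d2 N (T a) (T h) = d2 N a h := by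
  simp only [d2, N_def, ← map_add, ← map_smul, LinearIsometryEquiv.norm_map]

omit hS in
lemma d2_smul (c : ℝ) (a h : E) : d2 N (c • a) (c • h) = c ^ 2 * d2 N a h := by
  have e1 : c • a + (2 : ℝ) • c • h = c • (a + (2 : ℝ) • h) := by module
  have e2 : c • a + c • h = c • (a + h) := by module
  simp only [d2, N_def, e1, e2, norm_smul, Real.norm_eq_abs, mul_pow, sq_abs]
  ring

omit hS in
lemma d3_smul (c : ℝ) (a h : E) : d3 N (c • a) (c • h) = c ^ 2 * d3 N a h := by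
  have e1 : c • a + (3 : ℝ) • c • h = c • (a + (3 : ℝ) • h) := by module
  have e2 : c • a + (2 : ℝ) • c • h = c • (a + (2 : ℝ) • h) := by module
  have e3 : c • a + c • h = c • (a + h) := by module
  simp only [d3, N_def, e1, e2, e3, norm_smul, Real.norm_eq_abs, mul_pow, sq_abs]
  ring

omit hS in
lemma N_sub_le (p d : E) : |N (p + d) - N p| ≤ (2 * ‖p‖ + ‖d‖) * ‖d‖ := by
  simp only [N_def]
  have h1 := norm_add_le p d
  have h2 := norm_sub_le_norm_add p d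
  have hp := norm_nonneg p
  have hd := norm_nonneg d
  have hpd := norm_nonneg (p + d)
  rw [abs_le]
  constructor
  · rcases le_or_gt ‖p‖ ‖d‖ with h | h
    · nlinarith
    · nlinarith
  · nlinarith

omit hS in
/-- Moving the base point of a second difference. -/
lemma d2_base_le {a d h : E} {R ε : ℝ} (hε : 0 ≤ ε) (hd : ‖d‖ ≤ ε) (h0 : ‖a‖ ≤ R)
    (h1 : ‖a + h‖ ≤ R) (h2 : ‖a + (2 : ℝ) • h‖ ≤ R) :
    |d2 N (a + d) h - d2 N a h| ≤ 4 * ((2 * R + ε) * ε) := by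
  have k0 := N_sub_le a d
  have k1 := N_sub_le (a + h) d
  have k2 := N_sub_le (a + (2 : ℝ) • h) d
  have b0 : (2 * ‖a‖ + ‖d‖) * ‖d‖ ≤ (2 * R + ε) * ε := by
    have : 0 ≤ R := (norm_nonneg _).trans h0
    gcongr
  have b1 : (2 * ‖a + h‖ + ‖d‖) * ‖d‖ ≤ (2 * R + ε) * ε := by
    have : 0 ≤ R := (norm_nonneg _).trans h0
    gcongr
  have b2 : (2 * ‖a + (2 : ℝ) • h‖ + ‖d‖) * ‖d‖ ≤ (2 * R + ε) * ε := by
    have : 0 ≤ R := (norm_nonneg _).trans h0
    gcongr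
  have e1 : a + d + h = a + h + d := by abel
  have e2 : a + d + (2 : ℝ) • h = a + (2 : ℝ) • h + d := by abel
  unfold d2
  rw [e1, e2]
  have c0 := abs_le.mp (k0.trans b0)
  have c1 := abs_le.mp (k1.trans b1)
  have c2 := abs_le.mp (k2.trans b2)
  rw [abs_le]
  constructor <;> linarith [c0.1, c0.2, c1.1, c1.2, c2.1, c2.2]

end Pool.Agent.Helper53.BM.Lip
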