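import Pool.Agent.Helper53.BM.Lip.Basic

set_option autoImplicit false

open Filter Topology

namespace Pool.Agent.Helper53.BM.Lip

section algebra
variable {E : Type*} [AddCommGroup E] [Module ℝ E]

/-- Second difference. -/
def d2 (F : E → ℝ) (a h : E) : ℝ := F (a + (2 : ℝ) • h) - 2 * F (a + h) + F a

/-- Third difference. -/
def d3 (F : E → ℝ) (a h : E) : ℝ :=
  F (a + (3 : ℝ) • h) - 3 * F (a + (2 : ℝ) • h) + 3 * F (a + h) - F a

/-- Mixed second difference. -/
def m2 (F : E → ℝ) (x u v : E) : ℝ := F (x + u + v) - F (x + u) - F (x + v) + F x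

/-- Mixed third difference. -/
def m3 (F : E → ℝ) (x u v z : E) : ℝ :=
  F (x + u + v + z) - F (x + u + v) - F (x + u + z) - F (x + v + z) + F (x + u) + F (x + v)
    + F (x + z) - F x

lemma d3_eq (F : E → ℝ) (a h : E) : d3 F a h = d2 F (a + h) h - d2 F a h := by
  have h1 : a + (3 : ℝ) • h = a + h + (2 : ℝ) • h := by module
  have h2 : a + (2 : ℝ) • h = a + h + h := by module
  unfold d3 d2
  rw [h1, h2]
  ring

lemma m2_add (F : E → ℝ) (x u u' v : E) :
    m2 F x (u + u') v = m2 F x u v + m2 F x u' v + m3 F x u u' v := by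
  unfold m2 m3
  rw [← add_assoc]
  ring

lemma m2_comm (F : E → ℝ) (x u v : E) : m2 F x u v = m2 F x v u := by
  unfold m2
  rw [add_right_comm]
  ring

lemma m3_eq (F : E → ℝ) (x u v z : E) : m3 F x u v z =
    - d3 F (x + z) (-((1 / 3 : ℝ) • z)) -
    d3 F (x + v) (-((1 / 2 : ℝ) • v)) + d3 F (x + v + z) (-((1 / 2 : ℝ) • v + (1 / 3 : ℝ) • z)) -
    d3 F (x + u) (-(u)) + d3 F (x + u + z) (-(u + (1 / 3 : ℝ) • z)) + d3 F (x + u + v) (-(u + (1 / 2 : ℝ) • v)) -
    d3 F (x + u + v + z) (-(u + (1 / 2 : ℝ) • v + (1 / 3 : ℝ) • z)) := by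
  set P : ℝ → ℝ → ℝ → E := fun a b c => x + a • u + b • v + c • z with hP
  have h0 : F (x + z + (3 : ℝ) • (-((1 / 3 : ℝ) • z))) = F (P (0) (0) (0)) := by
    congr 1
    simp only [hP]
    module
  have h1 : F (x + z + (2 : ℝ) • (-((1 / 3 : ℝ) • z))) = F (P (0) (0) (1/3)) := by
    congr 1
    simp only [hP]
    module
  have h2 : F (x + z + (-((1 / 3 : ℝ) • z))) = F (P (0) (0) (2/3)) := by
    congr 1
    simp only [hP]
    module
  have h3 : F (x + z) = F (P (0) (0) (1)) := by
    congr 1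
    simp only [hP]
    module
  have h4 : F (x + v + (3 : ℝ) • (-((1 / 2 : ℝ) • v))) = F (P (0) (-1/2) (0)) := by
    congr 1
    simp only [hP]
    module
  have h5 : F (x + v + (2 : ℝ) • (-((1 / 2 : ℝ) • v))) = F (P (0) (0) (0)) := by
    congr 1
    simp only [hP]
    module
  have h6 : F (x + v + (-((1 / 2 : ℝ) • v))) = F (P (0) (1/2) (0)) := by
    congr 1
    simp only [hP]
    module
  have h7 : F (x + v) = F (P (0) (1) (0)) := by
    congr 1
    simp only [hP]
    module
  have h8 : F (x + v + z + (3 : ℝ) • (-((1 / 2 : ℝ) • v + (1 / 3 : ℝ) • z))) = F (P (0) (-1/2) (0)) := by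
    congr 1
    simp only [hP]
    module
  have h9 : F (x + v + z + (2 : ℝ) • (-((1 / 2 : ℝ) • v + (1 / 3 : ℝ) • z))) = F (P (0) (0) (1/3)) := by
    congr 1
    simp only [hP]
    module
  have h10 : F (x + v + z + (-((1 / 2 : ℝ) • v + (1 / 3 : ℝ) • z))) = F (P (0) (1/2) (2/3)) := by
    congr 1
    simp only [hP]
    module
  have h11 : F (x + v + z) = F (P (0) (1) (1)) := by
    congr 1
    simp only [hP]
    module
  have h12 : F (x + u + (3 : ℝ) • (-(u))) = F (P (-2) (0) (0)) := by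
    congr 1
    simp only [hP]
    module
  have h13 : F (x + u + (2 : ℝ) • (-(u))) = F (P (-1) (0) (0)) := by
    congr 1
    simp only [hP]
    module
  have h14 : F (x + u + (-(u))) = F (P (0) (0) (0)) := by
    congr 1
    simp only [hP]
    module
  have h15 : F (x + u) = F (P (1) (0) (0)) := by
    congr 1
    simp only [hP]
    module
  have h16 : F (x + u + z + (3 : ℝ) • (-(u + (1 / 3 : ℝ) • z))) = F (P (-2) (0) (0)) := by
    congr 1
    simp only [hP]
    module
  have h17 : F (x + u + z + (2 : ℝ) • (-(u + (1 / 3 : ℝ) • z))) = F (P (-1) (0) (1/3)) := by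
    congr 1
    simp only [hP]
    module
  have h18 : F (x + u + z + (-(u + (1 / 3 : ℝ) • z))) = F (P (0) (0) (2/3)) := by
    congr 1
    simp only [hP]
    module
  have h19 : F (x + u + z) = F (P (1) (0) (1)) := by
    congr 1
    simp only [hP]
    module
  have h20 : F (x + u + v + (3 : ℝ) • (-(u + (1 / 2 : ℝ) • v))) = F (P (-2) (-1/2) (0)) := by
    congr 1
    simp only [hP]
    module
  have h21 : F (x + u + v + (2 : ℝ) • (-(u + (1 / 2 : ℝ) • v))) = F (P (-1) (0) (0)) := by
    congr 1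
    simp only [hP]
    module
  have h22 : F (x + u + v + (-(u + (1 / 2 : ℝ) • v))) = F (P (0) (1/2) (0)) := by
    congr 1
    simp only [hP]
    module
  have h23 : F (x + u + v) = F (P (1) (1) (0)) := by
    congr 1
    simp only [hP]
    module
  have h24 : F (x + u + v + z + (3 : ℝ) • (-(u + (1 / 2 : ℝ) • v + (1 / 3 : ℝ) • z))) = F (P (-2) (-1/2) (0)) := by
    congr 1
    simp only [hP]
    module
  have h25 : F (x + u + v + z + (2 : ℝ) • (-(u + (1 / 2 : ℝ) • v + (1 / 3 : ℝ) • z))) = F (P (-1) (0) (1/3)) := by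
    congr 1
    simp only [hP]
    module
  have h26 : F (x + u + v + z + (-(u + (1 / 2 : ℝ) • v + (1 / 3 : ℝ) • z))) = F (P (0) (1/2) (2/3)) := by
    congr 1
    simp only [hP]
    module
  have h27 : F (x + u + v + z) = F (P (1) (1) (1)) := by
    congr 1
    simp only [hP]
    module
  have h28 : F (x) = F (P (0) (0) (0)) := by
    congr 1
    simp only [hP]
    module
  unfold m3 d3
  rw [h0, h1, h2, h3, h4, h5, h6, h7, h8, h9, h10, h11, h12, h13, h14, h15, h16, h17, h18, h19, h20, h21, h22, h23, h24, h25, h26, h27, h28]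
  ring

end algebra

end Pool.Agent.Helper53.BM.Lip
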